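import Pool.Agent.Work.MP_77c57a_nt.Interface

set_option autoImplicit false

namespace Pool.Mor

namespace Cx

theorem nox {x y z : ℤ} (h : Sol x y z) : Odd x.natAbs ∧ ¬ 3 ∣ x.natAbs := by
  unfold Sol at h
  constructor
  · rw [Int.natAbs_odd]
    by_contra hc
    rw [Int.not_odd_iff_even] at hc
    obtain ⟨k, hk⟩ := hc
    have h8 : ((8 : ℕ) : ℤ) ∣ z ^ 3 + 2 := ⟨k ^ 3 * y ^ 2, by
      rw [← h, hk]
      push_cast
      ring⟩
    have h9 := (ZMod.intCast_zmod_eq_zero_iff_dvd (z ^ 3 + 2) 8).2 h8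
    push_cast at h9
    have h10 : ∀ w : ZMod 8, w ^ 3 + 2 ≠ 0 := by decide
    exact h10 _ h9
  · intro h3
    have h4 : (3 : ℤ) ∣ x := by
      have h5 := Int.natCast_dvd.2 h3
      exact_mod_cast h5
    obtain ⟨k, hk⟩ := h4
    have h8 : ((9 : ℕ) : ℤ) ∣ z ^ 3 + 2 := ⟨3 * k ^ 3 * y ^ 2, by
      rw [← h, hk]
      push_cast
      ring⟩
    have h9 := (ZMod.intCast_zmod_eq_zero_iff_dvd (z ^ 3 + 2) 9).2 h8
    push_cast at h9
    have h10 : ∀ w : ZMod 9, w ^ 3 + 2 ≠ 0 := by decide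
    exact h10 _ h9

theorem dvdz {x y z : ℤ} (h : Sol x y z) : (x.natAbs : ℤ) ^ 3 ∣ z ^ 3 + 2 := by
  have h1 : x ^ 3 ∣ z ^ 3 + 2 := ⟨y ^ 2, h.symm⟩
  rw [Int.natCast_natAbs, ← abs_pow]
  exact (abs_dvd _ _).2 h1

theorem mem_roots {n : ℕ} (hn : 0 < n) {z : ℤ} (h : (n : ℤ) ^ 3 ∣ z ^ 3 + 2) :
    (z % (n : ℤ) ^ 3).toNat ∈ (Finset.range (n ^ 3)).filter (fun z => n ^ 3 ∣ z ^ 3 + 2) := by
  have hN : (0 : ℤ) < (n : ℤ) ^ 3 := by positivity
  have e1 : ((z % (n : ℤ) ^ 3).toNat : ℤ) = z % (n : ℤ) ^ 3 :=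
    Int.toNat_of_nonneg (Int.emod_nonneg _ hN.ne')
  rw [Finset.mem_filter, Finset.mem_range]
  constructor
  · have h2 := Int.emod_lt_of_pos z hN
    have h3 : ((z % (n : ℤ) ^ 3).toNat : ℤ) < ((n ^ 3 : ℕ) : ℤ) := by
      rw [e1]
      push_cast
      exact h2
    exact_mod_cast h3
  · have h2 : (z % (n : ℤ) ^ 3) ^ 3 + 2 ≡ z ^ 3 + 2 [ZMOD (n : ℤ) ^ 3] :=
      ((Int.mod_modEq z ((n : ℤ) ^ 3)).pow 3).add_right 2
    have h3 : (z % (n : ℤ) ^ 3) ^ 3 + 2 ≡ 0 [ZMOD (n : ℤ) ^ 3] :=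
      h2.trans (Int.modEq_zero_iff_dvd.2 h)
    have h4 := Int.modEq_zero_iff_dvd.1 h3
    rw [← e1] at h4
    exact_mod_cast h4

open Classical in
theorem cls (n Z : ℕ) (x : ℤ) (hn : (n : ℤ) = |x|) (hn0 : 0 < n) (G : Finset ℤ)
    (hG : ∀ z ∈ G, |z| ≤ (Z : ℤ) ∧ ∃ y, Sol x y z) (r : ℕ) :
    ∃ z0 : ℤ, (G.filter (fun z => (z % (n : ℤ) ^ 3).toNat = r)).card ≤
      ((Finset.range (2 * (Z / n ^ 3) + 1 + 1)).filter (fun t : ℕ =>
        IsSquare (x * ((z0 + |x| ^ 3 * t) ^ 3 + 2)))).card := by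
  have hN : (0 : ℤ) < (n : ℤ) ^ 3 := by positivity
  obtain ⟨N, hNe⟩ : ∃ N : ℤ, N = (n : ℤ) ^ 3 := ⟨_, rfl⟩
  obtain ⟨m, hm⟩ : ∃ m : ℕ, m = Z / n ^ 3 := ⟨_, rfl⟩
  have hNm : (Z : ℤ) < N * m + N := by
    have h1 : Z < n ^ 3 * (Z / n ^ 3) + n ^ 3 := by
      have h2 := Nat.div_add_mod Z (n ^ 3)
      have h3 := Nat.mod_lt Z (show 0 < n ^ 3 by positivity)
      omega
    rw [← hm] at h1
    rw [hNe]
    exact_mod_cast h1
  rw [← hNe] at hN ⊢
  rw [← hm, ← hn, ← hNe]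
  refine ⟨(r : ℤ) - N * (m + 1), ?_⟩
  have q1 : ∀ z : ℤ, |z| ≤ (Z : ℤ) → -((m : ℤ) + 1) ≤ z / N ∧ z / N ≤ m := by
    intro z hz
    rw [abs_le] at hz
    have h1 := Int.emod_add_mul_ediv z N
    have h2 := Int.emod_nonneg z hN.ne'
    have h3 := Int.emod_lt_of_pos z hN
    constructor
    · by_contra hc
      have h4 : N * (z / N + 1) ≤ N * (-((m : ℤ) + 1)) :=
        mul_le_mul_of_nonneg_left (by omega) hN.le
      have h5 : N * (z / N + 1) = N * (z / N) + N := by ring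
      have h6 : N * (-((m : ℤ) + 1)) = -(N * m + N) := by ring
      omega
    · by_contra hc
      have h4 : N * ((m : ℤ) + 1) ≤ N * (z / N) :=
        mul_le_mul_of_nonneg_left (by omega) hN.le
      have h5 : N * ((m : ℤ) + 1) = N * m + N := by ring
      omega
  apply Finset.card_le_card_of_injOn (fun z => (z / N + (m + 1)).toNat)
  · intro z hz
    rw [Finset.mem_coe, Finset.mem_filter] at hz
    obtain ⟨hz1, hz2⟩ := hz
    obtain ⟨hz3, y, hy⟩ := hG z hz1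
    obtain ⟨h1, h2⟩ := q1 z hz3
    have h3 : ((z / N + ((m : ℤ) + 1)).toNat : ℤ) = z / N + (m + 1) :=
      Int.toNat_of_nonneg (by omega)
    rw [Finset.mem_coe, Finset.mem_filter, Finset.mem_range]
    constructor
    · show (z / N + ((m : ℤ) + 1)).toNat < _
      omega
    · show IsSquare (x * (((r : ℤ) - N * (m + 1) + N * ((z / N + ((m : ℤ) + 1)).toNat : ℤ)) ^ 3 + 2))
      have h4 : (r : ℤ) = z % N := by
        rw [← hz2]
        exact Int.toNat_of_nonneg (Int.emod_nonneg _ hN.ne')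
      have h5 : (r : ℤ) - N * (m + 1) + N * ((z / N + ((m : ℤ) + 1)).toNat : ℤ) = z := by
        rw [h3, h4]
        have h6 := Int.emod_add_mul_ediv z N
        linarith
      rw [h5]
      unfold Sol at hy
      exact ⟨x ^ 2 * y, by
        rw [← hy]
        ring⟩
  · intro z hz z' hz' he
    rw [Finset.mem_coe, Finset.mem_filter] at hz hz'
    obtain ⟨h1, h2⟩ := q1 z (hG z hz.1).1
    obtain ⟨h1', h2'⟩ := q1 z' (hG z' hz'.1).1
    have he' : (z / N + ((m : ℤ) + 1)).toNat = (z' / N + ((m : ℤ) + 1)).toNat := he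
    have h3 : z / N = z' / N := by omega
    have h4 : z % N = z' % N := by
      have h5 := hz.2.trans hz'.2.symm
      have h6 := Int.emod_nonneg z hN.ne'
      have h7 := Int.emod_nonneg z' hN.ne'
      omega
    have h5 := Int.emod_add_mul_ediv z N
    have h6 := Int.emod_add_mul_ediv z' N
    rw [h3, h4] at h5
    omega

theorem two (x : ℤ) (hx : x ≠ 0) (F : Finset (ℤ × ℤ)) (hF : ∀ s ∈ F, Sol x s.1 s.2) :
    F.card ≤ 2 * (F.image Prod.snd).card := by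
  apply Finset.card_le_mul_card_image
  intro z hz
  rw [Finset.mem_image] at hz
  obtain ⟨s0, hs0, rfl⟩ := hz
  have hsub : F.filter (fun s => s.2 = s0.2) ⊆ {(s0.1, s0.2), (-s0.1, s0.2)} := by
    intro s hs
    rw [Finset.mem_filter] at hs
    have h1 := hF s hs.1
    have h2 := hF s0 hs0
    unfold Sol at h1 h2
    rw [hs.2, ← h2] at h1
    have h3 : s.1 ^ 2 = s0.1 ^ 2 := mul_left_cancel₀ (pow_ne_zero 3 hx) h1
    rw [Finset.mem_insert, Finset.mem_singleton]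
    rcases sq_eq_sq_iff_eq_or_eq_neg.1 h3 with h4 | h4
    · left
      exact Prod.ext h4 hs.2
    · right
      exact Prod.ext h4 hs.2
  exact (Finset.card_le_card hsub).trans Finset.card_le_two

end Cx

open Cx in
open Classical in
theorem p_CX (h1 : S_ROOT) (h2 : S_SV) : S_CX := by
  intro ε hε
  obtain ⟨C1, hC1, H1⟩ := h1 ε hε
  obtain ⟨C2, hC2, H2⟩ := h2
  refine ⟨4 * C1 + 12 * C1 * C2, by positivity, ?_⟩
  intro Z x hZ hx F hF
  obtain ⟨n, hn⟩ : ∃ n, n = x.natAbs := ⟨_, rfl⟩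
  rw [← hn]
  have hn0 : 0 < n := by
    rw [hn]
    exact Int.natAbs_pos.2 hx
  have hnx : (n : ℤ) = |x| := by
    rw [hn, Int.natCast_natAbs]
  have hnR : (1 : ℝ) ≤ n := by exact_mod_cast hn0
  have hZR : (2 : ℝ) ≤ Z := by exact_mod_cast hZ
  have hlog : 0 < Real.log Z := Real.log_pos (by linarith)
  have hne : (0 : ℝ) < (n : ℝ) ^ ε := Real.rpow_pos_of_pos (by linarith) _
  rcases F.eq_empty_or_nonempty with rfl | ⟨s, hs⟩
  · rw [Finset.card_empty]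
    push_cast
    constructor
    · positivity
    · intro _
      positivity
  obtain ⟨hodd, h3⟩ := nox (hF s hs).1
  rw [← hn] at hodd h3
  have hroots := H1 n hodd h3
  obtain ⟨G, hGe⟩ : ∃ G, G = F.image Prod.snd := ⟨_, rfl⟩
  have hG : ∀ z ∈ G, |z| ≤ (Z : ℤ) ∧ ∃ y, Sol x y z := by
    intro z hz
    rw [hGe, Finset.mem_image] at hz
    obtain ⟨s, hs, rfl⟩ := hz
    exact ⟨(hF s hs).2, s.1, (hF s hs).1⟩
  have hFG : F.card ≤ 2 * G.card := by
    rw [hGe]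
    exact two x hx F (fun s hs => (hF s hs).1)
  have hmaps : ∀ z ∈ G, (z % (n : ℤ) ^ 3).toNat ∈
      (Finset.range (n ^ 3)).filter (fun z => n ^ 3 ∣ z ^ 3 + 2) := by
    intro z hz
    obtain ⟨_, y, hy⟩ := hG z hz
    apply mem_roots hn0
    have h4 := dvdz hy
    rw [← hn] at h4
    exact h4
  have hsum : ∀ K : ℝ, 0 ≤ K → (∀ r : ℕ, ((G.filter (fun z => (z % (n : ℤ) ^ 3).toNat = r)).card : ℝ) ≤ K) →
      (F.card : ℝ) ≤ 2 * (C1 * (n : ℝ) ^ ε * K) := by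
    intro K hK h4
    have h5 := Finset.card_eq_sum_card_fiberwise hmaps
    have h6 : (G.card : ℝ) ≤ (((Finset.range (n ^ 3)).filter (fun z => n ^ 3 ∣ z ^ 3 + 2)).card : ℝ) * K := by
      rw [h5]
      push_cast
      refine (Finset.sum_le_sum fun r _ => h4 r).trans ?_
      rw [Finset.sum_const, nsmul_eq_mul]
    have h7 : (F.card : ℝ) ≤ 2 * (G.card : ℝ) := by exact_mod_cast hFG
    have h8 : (((Finset.range (n ^ 3)).filter (fun z => n ^ 3 ∣ z ^ 3 + 2)).card : ℝ) * K ≤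
        C1 * (n : ℝ) ^ ε * K := mul_le_mul_of_nonneg_right hroots hK
    linarith
  obtain ⟨m, hm⟩ : ∃ m : ℕ, m = Z / n ^ 3 := ⟨_, rfl⟩
  have hmR : (m : ℝ) ≤ Z / (n : ℝ) ^ 3 := by
    rw [hm]
    have h4 := @Nat.cast_div_le ℝ _ _ _ Z (n ^ 3)
    push_cast at h4
    exact h4
  have hZn : 0 ≤ (Z : ℝ) / (n : ℝ) ^ 3 := by positivity
  constructor
  · have h4 := hsum (2 * (Z / (n : ℝ) ^ 3 + 1)) (by positivity) (fun r => by
      obtain ⟨z0, hz0⟩ := cls n Z x hnx hn0 G hG r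
      have h5 := hz0.trans (Finset.card_filter_le _ _)
      rw [Finset.card_range, ← hm] at h5
      have h6 : ((G.filter (fun z => (z % (n : ℤ) ^ 3).toNat = r)).card : ℝ) ≤ 2 * m + 1 + 1 := by
        exact_mod_cast h5
      linarith)
    have h5 : 0 ≤ 12 * C1 * C2 * (n : ℝ) ^ ε * (Z / (n : ℝ) ^ 3 + 1) := by positivity
    have h6 : (4 * C1 + 12 * C1 * C2) * (n : ℝ) ^ ε * (Z / (n : ℝ) ^ 3 + 1) =
        2 * (C1 * (n : ℝ) ^ ε * (2 * (Z / (n : ℝ) ^ 3 + 1))) +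
        12 * C1 * C2 * (n : ℝ) ^ ε * (Z / (n : ℝ) ^ 3 + 1) := by ring
    linarith
  · intro h5Z
    have hmn : n ^ 2 ≤ m := by
      rw [hm, Nat.le_div_iff_mul_le (by positivity), ← pow_add]
      exact h5Z
    have hm1 : 1 ≤ m := (Nat.one_le_pow _ _ hn0).trans hmn
    have hnm : n ≤ m := (Nat.le_self_pow (by norm_num) n).trans hmn
    have hm1R : (1 : ℝ) ≤ m := by exact_mod_cast hm1
    have hT : ((2 * m + 1 : ℕ) : ℝ) = 2 * m + 1 := by push_cast; ring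
    have hsq : Real.sqrt ((2 * m + 1 : ℕ) : ℝ) ≤ 2 * Real.sqrt (Z / (n : ℝ) ^ 3) := by
      have h6 : ((2 * m + 1 : ℕ) : ℝ) ≤ 2 ^ 2 * (Z / (n : ℝ) ^ 3) := by
        rw [hT]
        linarith
      refine (Real.sqrt_le_sqrt h6).trans ?_
      rw [Real.sqrt_mul (by norm_num), Real.sqrt_sq (by norm_num)]
    have hlT : Real.log ((2 * m + 1 : ℕ) : ℝ) ≤ 3 * Real.log Z := by
      have h6 : (m : ℝ) ≤ Z := by
        have h7 : m ≤ Z := by
          rw [hm]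
          exact Nat.div_le_self _ _
        exact_mod_cast h7
      have h7 : ((2 * m + 1 : ℕ) : ℝ) ≤ (Z : ℝ) ^ 3 := by
        rw [hT]
        nlinarith [mul_self_nonneg ((Z : ℝ) - 2), mul_nonneg (show (0 : ℝ) ≤ Z by linarith) (mul_self_nonneg ((Z : ℝ) - 2))]
      have h8 := Real.log_le_log (show (0 : ℝ) < ((2 * m + 1 : ℕ) : ℝ) by rw [hT]; linarith) h7
      rw [Real.log_pow] at h8
      push_cast at h8 ⊢
      exact h8
    have hlT0 : 0 ≤ Real.log ((2 * m + 1 : ℕ) : ℝ) := Real.log_nonneg (by rw [hT]; linarith)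
    have h4 := hsum (C2 * (2 * Real.sqrt (Z / (n : ℝ) ^ 3) * (3 * Real.log Z))) (by positivity) (fun r => by
      obtain ⟨z0, hz0⟩ := cls n Z x hnx hn0 G hG r
      rw [← hm] at hz0
      have h5 := H2 x z0 (2 * m + 1) hx (by omega) (by rw [← hn]; omega)
      have h6 : ((G.filter (fun z => (z % (n : ℤ) ^ 3).toNat = r)).card : ℝ) ≤
          (((Finset.range (2 * m + 1 + 1)).filter (fun t : ℕ =>
            IsSquare (x * ((z0 + |x| ^ 3 * t) ^ 3 + 2)))).card : ℝ) := by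
        exact_mod_cast hz0
      have h7 : Real.sqrt ((2 * m + 1 : ℕ) : ℝ) * Real.log ((2 * m + 1 : ℕ) : ℝ) ≤
          2 * Real.sqrt (Z / (n : ℝ) ^ 3) * (3 * Real.log Z) :=
        mul_le_mul hsq hlT hlT0 (by positivity)
      exact h6.trans (h5.trans (mul_le_mul_of_nonneg_left h7 hC2.le)))
    have h5 : 0 ≤ 4 * C1 * (n : ℝ) ^ ε * (Real.sqrt (Z / (n : ℝ) ^ 3) * Real.log Z) := by positivity
    have h6 : (4 * C1 + 12 * C1 * C2) * (n : ℝ) ^ ε * (Real.sqrt (Z / (n : ℝ) ^ 3) * Real.log Z) =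
        2 * (C1 * (n : ℝ) ^ ε * (C2 * (2 * Real.sqrt (Z / (n : ℝ) ^ 3) * (3 * Real.log Z)))) +
        4 * C1 * (n : ℝ) ^ ε * (Real.sqrt (Z / (n : ℝ) ^ 3) * Real.log Z) := by ring
    linarith

end Pool.Mor
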