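import Pool.Agent.Work.MP_77c57a_nt.Interface

/-!
# FIN: the assembly of the theorem
-/

set_option autoImplicit false

namespace Pool.Mor

namespace FIN

theorem ne2 (z : ℤ) : z ^ 3 + 2 ≠ 0 := by
  intro h
  rcases le_or_gt z (-2) with h1 | h1
  · have : (z + 2) * (z ^ 2 - 2 * z + 4) ≤ 0 :=
      mul_nonpos_of_nonpos_of_nonneg (by linarith) (by nlinarith [sq_nonneg (z - 1)])
    have e : (z + 2) * (z ^ 2 - 2 * z + 4) = z ^ 3 + 8 := by ring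
    omega
  · have : 0 ≤ (z + 1) * (z ^ 2 - z + 1) :=
      mul_nonneg (by linarith) (by nlinarith [sq_nonneg (z - 1), sq_nonneg z])
    have e : (z + 1) * (z ^ 2 - z + 1) = z ^ 3 + 1 := by ring
    omega

theorem bnd {Z : ℕ} {x y z : ℤ} (h : x ^ 3 * y ^ 2 = z ^ 3 + 2) (hz : |z| ≤ (Z : ℤ)) :
    x ≠ 0 ∧ y ≠ 0 ∧ |x| ^ 3 * y ^ 2 ≤ (Z : ℤ) ^ 3 + 2 := by
  have h0 := ne2 z
  refine ⟨?_, ?_, ?_⟩
  · rintro rfl
    apply h0
    rw [← h]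
    simp
  · rintro rfl
    apply h0
    rw [← h]
    simp
  · have h1 : |x| ^ 3 * y ^ 2 = |z ^ 3 + 2| := by
      rw [← h, abs_mul, abs_pow, abs_pow, sq_abs]
    rw [h1]
    calc |z ^ 3 + 2| ≤ |z ^ 3| + |2| := abs_add_le _ _
      _ = |z| ^ 3 + 2 := by rw [abs_pow]; rfl
      _ ≤ (Z : ℤ) ^ 3 + 2 := by
        have := pow_le_pow_left₀ (abs_nonneg z) hz 3
        linarith

theorem fin (Z : ℕ) :
    {s : ℤ × ℤ × ℤ | s.1 ^ 3 * s.2.1 ^ 2 = s.2.2 ^ 3 + 2 ∧ |s.2.2| ≤ (Z : ℤ)}.Finite := by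
  apply Set.Finite.subset (Finset.finite_toSet
    (Finset.Icc (-((Z : ℤ) ^ 3 + 2)) ((Z : ℤ) ^ 3 + 2) ×ˢ
      (Finset.Icc (-((Z : ℤ) ^ 3 + 2)) ((Z : ℤ) ^ 3 + 2) ×ˢ Finset.Icc (-(Z : ℤ)) (Z : ℤ))))
  rintro ⟨x, y, z⟩ ⟨h, hz⟩
  simp only at h hz
  obtain ⟨hx, hy, hb⟩ := bnd h hz
  have hx1 : 1 ≤ |x| := Int.one_le_abs hx
  have hy1 : 1 ≤ |y| := Int.one_le_abs hy
  have hy2 : |y| ≤ y ^ 2 := by
    rw [← sq_abs]
    nlinarith
  have hx3 : |x| ≤ |x| ^ 3 := le_self_pow₀ hx1 (by norm_num)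
  have hx4 : 1 ≤ |x| ^ 3 := le_trans hx1 hx3
  have b1 : |x| ≤ (Z : ℤ) ^ 3 + 2 := by nlinarith
  have b2 : |y| ≤ (Z : ℤ) ^ 3 + 2 := by nlinarith
  simp only [Finset.coe_product, Set.mem_prod, Finset.mem_coe, Finset.mem_Icc]
  exact ⟨abs_le.1 b1, abs_le.1 b2, abs_le.1 hz⟩

/-- the bound for one value of `x` -/
theorem fib (C ε : ℝ) (hC : 0 < C) (hε : 0 < ε) (Z : ℕ) (hZ : 2 ≤ Z)
    (h : ∀ (x : ℤ), x ≠ 0 → ∀ F : Finset (ℤ × ℤ), (∀ s ∈ F, Sol x s.1 s.2 ∧ |s.2| ≤ (Z : ℤ)) →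
    (F.card : ℝ) ≤ C * (x.natAbs : ℝ) ^ ε * (Z / (x.natAbs : ℝ) ^ 3 + 1) ∧
    (x.natAbs ^ 5 ≤ Z → (F.card : ℝ) ≤
      C * (x.natAbs : ℝ) ^ ε * (Real.sqrt (Z / (x.natAbs : ℝ) ^ 3) * Real.log Z)))
    (a : ℝ) (ha : 1 ≤ a) (ha5 : a ^ 5 = Z)
    (x : ℤ) (hx : x ≠ 0) (hx2 : (x.natAbs : ℝ) ≤ 2 * a ^ 3)
    (F : Finset (ℤ × ℤ)) (hF : ∀ s ∈ F, Sol x s.1 s.2 ∧ |s.2| ≤ (Z : ℤ)) :
    (F.card : ℝ) ≤ 3 * C * (Z : ℝ) ^ (2 * ε) * a ^ 3 * (1 + Real.log Z) * (x.natAbs : ℝ)⁻¹ := by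
  obtain ⟨c1, c2⟩ := h x hx F hF
  have hn1 : (1 : ℝ) ≤ (x.natAbs : ℝ) := by
    have : 1 ≤ x.natAbs := Int.natAbs_pos.2 hx
    exact_mod_cast this
  have hZ2 : (2 : ℝ) ≤ (Z : ℝ) := by exact_mod_cast hZ
  have hlog : 0 ≤ Real.log Z := Real.log_nonneg (by linarith)
  have ha0 : 0 < a := by linarith
  have ha35 : a ^ 3 ≤ a ^ 5 := pow_le_pow_right₀ ha (by norm_num)
  have hnZ : (x.natAbs : ℝ) ≤ (Z : ℝ) ^ (2 : ℝ) := by
    rw [Real.rpow_two]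
    rw [ha5] at ha35
    nlinarith
  have hnε : (x.natAbs : ℝ) ^ ε ≤ (Z : ℝ) ^ (2 * ε) := by
    rw [Real.rpow_mul (by linarith)]
    exact Real.rpow_le_rpow (by linarith) hnZ hε.le
  obtain ⟨n, hn⟩ : ∃ n : ℝ, n = (x.natAbs : ℝ) := ⟨_, rfl⟩
  rw [← hn] at c1 c2 hn1 hnZ hnε hx2 ⊢
  have hn0 : 0 < n := by linarith
  have hne0 : 0 ≤ n ^ ε := Real.rpow_nonneg hn0.le _
  have ha3 : 0 < a ^ 3 := by positivity
  have hZe : 0 ≤ (Z : ℝ) ^ (2 * ε) := Real.rpow_nonneg (by linarith) _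
  -- it is enough to bound the last factor
  have key : ∀ G : ℝ, G ≤ 3 * a ^ 3 * (1 + Real.log Z) * n⁻¹ → (F.card : ℝ) ≤ C * n ^ ε * G →
      (F.card : ℝ) ≤ 3 * C * (Z : ℝ) ^ (2 * ε) * a ^ 3 * (1 + Real.log Z) * n⁻¹ := by
    intro G hG hFG
    have hR : 0 ≤ 3 * a ^ 3 * (1 + Real.log Z) * n⁻¹ := by positivity
    calc (F.card : ℝ) ≤ C * n ^ ε * G := hFG
      _ ≤ C * n ^ ε * (3 * a ^ 3 * (1 + Real.log Z) * n⁻¹) :=
          mul_le_mul_of_nonneg_left hG (by positivity)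
      _ ≤ C * (Z : ℝ) ^ (2 * ε) * (3 * a ^ 3 * (1 + Real.log Z) * n⁻¹) := by
          apply mul_le_mul_of_nonneg_right _ hR
          exact mul_le_mul_of_nonneg_left hnε hC.le
      _ = _ := by ring
  by_cases h5 : x.natAbs ^ 5 ≤ Z
  · refine key _ ?_ (c2 h5)
    have h6 : Real.sqrt (Z / n ^ 3) ≤ a ^ 3 * n⁻¹ := by
      rw [Real.sqrt_le_iff]
      refine ⟨by positivity, ?_⟩
      rw [← ha5, div_le_iff₀ (by positivity)]
      have e : (a ^ 3 * n⁻¹) ^ 2 * n ^ 3 = a ^ 6 * n := by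
        field_simp
      rw [e]
      have h7 : a ^ 5 ≤ a ^ 6 := pow_le_pow_right₀ ha (by norm_num)
      have h8 : 0 ≤ a ^ 6 := by positivity
      nlinarith
    calc Real.sqrt (Z / n ^ 3) * Real.log Z ≤ a ^ 3 * n⁻¹ * Real.log Z :=
          mul_le_mul_of_nonneg_right h6 hlog
      _ ≤ 3 * a ^ 3 * (1 + Real.log Z) * n⁻¹ := by
          have h9 : 0 ≤ a ^ 3 * n⁻¹ := by positivity
          nlinarith [mul_nonneg h9 hlog]
  · refine key _ ?_ c1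
    have h5' : (Z : ℝ) < n ^ 5 := by
      rw [hn]
      exact_mod_cast not_le.1 h5
    have han : a < n := by
      rw [← ha5] at h5'
      exact lt_of_pow_lt_pow_left₀ 5 hn0.le h5'
    have h6 : Z / n ^ 3 ≤ a ^ 3 * n⁻¹ := by
      rw [← ha5, div_le_iff₀ (by positivity)]
      have e : a ^ 3 * n⁻¹ * n ^ 3 = a ^ 3 * n ^ 2 := by
        field_simp
      rw [e]
      have h7 : a ^ 2 ≤ n ^ 2 := pow_le_pow_left₀ ha0.le han.le 2
      calc a ^ 5 = a ^ 3 * a ^ 2 := by ring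
        _ ≤ a ^ 3 * n ^ 2 := mul_le_mul_of_nonneg_left h7 ha3.le
    have h7 : 1 ≤ 2 * a ^ 3 * n⁻¹ := by
      rw [← div_eq_mul_inv, le_div_iff₀ hn0]
      linarith
    have h9 : 0 ≤ a ^ 3 * n⁻¹ := by positivity
    nlinarith [mul_nonneg h9 hlog]

/-- the sum over `x` -/
theorem sumF (F : Finset (ℤ × ℤ × ℤ)) (M : ℕ) (B : ℝ) (hB : 0 ≤ B)
    (h0 : ∀ s ∈ F, s.1 ≠ 0 ∧ s.1.natAbs ≤ M)
    (h : ∀ x : ℤ, x ≠ 0 → x.natAbs ≤ M →
      ((F.filter (fun s => s.1 = x)).card : ℝ) ≤ B * (x.natAbs : ℝ)⁻¹) :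
    (F.card : ℝ) ≤ 2 * B * (1 + Real.log M) := by
  classical
  have h1 : F.card = ∑ n ∈ Finset.Icc 1 M, (F.filter (fun s => s.1.natAbs = n)).card := by
    apply Finset.card_eq_sum_card_fiberwise
    intro s hs
    have := h0 s hs
    simp only [Finset.coe_Icc, Set.mem_Icc]
    exact ⟨Int.natAbs_pos.2 this.1, this.2⟩
  have h2 : ∀ n ∈ Finset.Icc 1 M, ((F.filter (fun s => s.1.natAbs = n)).card : ℝ) ≤
      2 * B * (n : ℝ)⁻¹ := by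
    intro n hn
    rw [Finset.mem_Icc] at hn
    have hsub : F.filter (fun s => s.1.natAbs = n) ⊆
        F.filter (fun s => s.1 = (n : ℤ)) ∪ F.filter (fun s => s.1 = -(n : ℤ)) := by
      intro s hs
      rw [Finset.mem_filter] at hs
      rw [Finset.mem_union, Finset.mem_filter, Finset.mem_filter]
      rcases Int.natAbs_eq_iff.1 hs.2 with h | h
      · exact Or.inl ⟨hs.1, h⟩
      · exact Or.inr ⟨hs.1, h⟩
    have h3 := le_trans (Finset.card_le_card hsub) (Finset.card_union_le _ _)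
    have h4 : ((F.filter (fun s => s.1.natAbs = n)).card : ℝ) ≤
        ((F.filter (fun s => s.1 = (n : ℤ))).card : ℝ) +
        ((F.filter (fun s => s.1 = -(n : ℤ))).card : ℝ) := by exact_mod_cast h3
    have hn0 : (n : ℤ) ≠ 0 := by omega
    have h5 := h (n : ℤ) hn0 (by simpa using hn.2)
    have h6 := h (-(n : ℤ)) (by omega) (by simpa using hn.2)
    rw [Int.natAbs_neg] at h6
    rw [Int.natAbs_natCast] at h5 h6
    linarith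
  rw [h1, Nat.cast_sum]
  refine le_trans (Finset.sum_le_sum h2) ?_
  rw [← Finset.mul_sum]
  have h7 : ∑ n ∈ Finset.Icc 1 M, (n : ℝ)⁻¹ = ((harmonic M : ℚ) : ℝ) := by
    rw [harmonic_eq_sum_Icc]
    push_cast
    rfl
  rw [h7]
  exact mul_le_mul_of_nonneg_left (harmonic_le_one_add_log M) (by positivity)

end FIN

open FIN in
theorem p_FIN (h1 : S_GAP) (h2 : S_CX) : Target := by
  classical
  intro ε hε
  obtain ⟨C1, hC1, hG⟩ := h1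
  obtain ⟨C2, hC2, hX⟩ := h2 (ε / 6) (by linarith)
  let K : ℝ := 1 + 3 / ε
  have hK : 0 < K := by positivity
  refine ⟨((fin 1).toFinset.card : ℝ) + 2 * C1 * K + 12 * C2 * (2 * K ^ 2) + 1, by positivity,
    fun Z hZ => ⟨fin Z, ?_⟩⟩
  rw [Set.ncard_eq_toFinset_card _ (fin Z)]
  rcases Nat.lt_or_ge Z 2 with hZ2 | hZ2
  · obtain rfl : Z = 1 := by omega
    have e1 : ((1 : ℕ) : ℝ) ^ ((3 : ℝ) / 5 + ε) = 1 := by rw [Nat.cast_one, Real.one_rpow]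
    rw [e1, mul_one]
    have : 0 ≤ 2 * C1 * K + 12 * C2 * (2 * K ^ 2) + 1 := by positivity
    linarith
  have hZr : (2 : ℝ) ≤ (Z : ℝ) := by exact_mod_cast hZ2
  have hZ0 : (0 : ℝ) < (Z : ℝ) := by linarith
  obtain ⟨a, haD⟩ : ∃ a : ℝ, a = (Z : ℝ) ^ ((1 : ℝ) / 5) := ⟨_, rfl⟩
  have ha : 1 ≤ a := by
    rw [haD]
    exact Real.one_le_rpow (by linarith) (by norm_num)
  have ha0 : 0 < a := by linarith
  have ha5 : a ^ 5 = Z := by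
    rw [haD, ← Real.rpow_natCast, ← Real.rpow_mul hZ0.le]
    norm_num
  have ha3 : a ^ 3 = (Z : ℝ) ^ ((3 : ℝ) / 5) := by
    rw [haD, ← Real.rpow_natCast, ← Real.rpow_mul hZ0.le]
    norm_num
  obtain ⟨P, hP⟩ : ∃ P : ℝ, P = (Z : ℝ) ^ (ε / 3) := ⟨_, rfl⟩
  have hP1 : 1 ≤ P := by
    rw [hP]
    exact Real.one_le_rpow (by linarith) (by positivity)
  have hP3 : (Z : ℝ) ^ ((3 : ℝ) / 5 + ε) = a ^ 3 * P ^ 3 := by
    rw [Real.rpow_add hZ0, ha3, hP, ← Real.rpow_natCast _ 3, ← Real.rpow_mul hZ0.le]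
    congr 2
    push_cast
    ring
  have hPe : (Z : ℝ) ^ (2 * (ε / 6)) = P := by
    rw [hP]
    congr 1
    ring
  have hlog : 0 ≤ Real.log Z := Real.log_nonneg (by linarith)
  obtain ⟨L, hL⟩ : ∃ L : ℝ, L = 1 + Real.log Z := ⟨_, rfl⟩
  have hL1 : 1 ≤ L := by linarith
  have hLK : L ≤ K * P := by
    have h3 := Real.log_le_rpow_div hZ0.le (show 0 < ε / 3 by positivity)
    rw [← hP] at h3
    have h4 : P / (ε / 3) = 3 / ε * P := by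
      field_simp
    rw [h4] at h3
    rw [hL]
    simp only [K]
    nlinarith
  -- the cut at `Y`
  let Y : ℕ := ⌈a ^ 3⌉₊
  have hY1 : 1 ≤ Y := Nat.one_le_ceil_iff.2 (by positivity)
  have hYa : a ^ 3 ≤ (Y : ℝ) := Nat.le_ceil _
  have ha31 : 1 ≤ a ^ 3 := one_le_pow₀ ha
  have hYa2 : (Y : ℝ) ≤ 2 * a ^ 3 := by
    have := Nat.ceil_lt_add_one (show 0 ≤ a ^ 3 by positivity)
    have h' : (Y : ℝ) < a ^ 3 + 1 := this
    linarith
  let F : Finset (ℤ × ℤ × ℤ) := (fin Z).toFinset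
  have hFm : ∀ s ∈ F, s.1 ^ 3 * s.2.1 ^ 2 = s.2.2 ^ 3 + 2 ∧ |s.2.2| ≤ (Z : ℤ) := by
    intro s hs
    exact (Set.Finite.mem_toFinset (fin Z)).1 hs
  let F1 := F.filter (fun s => |s.2.1| ≤ (Y : ℤ))
  let F2 := F.filter (fun s => ¬ |s.2.1| ≤ (Y : ℤ))
  have hcard : F.card = F1.card + F2.card := (Finset.card_filter_add_card_filter_not _).symm
  have b1 : (F1.card : ℝ) ≤ C1 * Y * (1 + Real.log Z) := by
    apply hG Z Y hZ hY1 F1
    intro s hs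
    rw [Finset.mem_filter] at hs
    exact ⟨(hFm s hs.1).1, (hFm s hs.1).2, hs.2⟩
  let M : ℕ := ⌊2 * a ^ 3⌋₊
  have hM : (M : ℝ) ≤ 2 * a ^ 3 := Nat.floor_le (by positivity)
  have hM1 : 1 ≤ M := Nat.le_floor (by push_cast; linarith)
  have hx : ∀ s ∈ F2, s.1 ≠ 0 ∧ s.1.natAbs ≤ M := by
    intro s hs
    rw [Finset.mem_filter] at hs
    obtain ⟨hx, hy, hb⟩ := bnd (hFm s hs.1).1 (hFm s hs.1).2
    refine ⟨hx, Nat.le_floor ?_⟩
    have hY2 : (Y : ℤ) < |s.2.1| := not_le.1 hs.2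
    have hY3 : (Y : ℝ) < |(s.2.1 : ℝ)| := by
      have : ((Y : ℤ) : ℝ) < ((|s.2.1| : ℤ) : ℝ) := by exact_mod_cast hY2
      simpa using this
    have hb' : (s.1.natAbs : ℝ) ^ 3 * (s.2.1 : ℝ) ^ 2 ≤ (Z : ℝ) ^ 3 + 2 := by
      have h9 : (((s.1.natAbs : ℤ) ^ 3 * s.2.1 ^ 2 : ℤ) : ℝ) ≤ (((Z : ℤ) ^ 3 + 2 : ℤ) : ℝ) := by
        rw [Int.natCast_natAbs]
        exact_mod_cast hb
      push_cast at h9
      simpa using h9
    have hy2 : (a ^ 3) ^ 2 ≤ (s.2.1 : ℝ) ^ 2 := by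
      rw [← sq_abs (s.2.1 : ℝ)]
      exact pow_le_pow_left₀ (by positivity) (by linarith) 2
    have hn3 : 0 ≤ (s.1.natAbs : ℝ) ^ 3 := by positivity
    have h10 : (s.1.natAbs : ℝ) ^ 3 * (a ^ 3) ^ 2 ≤ (a ^ 5) ^ 3 + 2 := by
      rw [ha5]
      nlinarith
    have h11 : (1 : ℝ) ≤ a ^ 15 := one_le_pow₀ ha
    have h12 : (s.1.natAbs : ℝ) ^ 3 * a ^ 6 ≤ (2 * a ^ 3) ^ 3 * a ^ 6 := by
      calc (s.1.natAbs : ℝ) ^ 3 * a ^ 6 = (s.1.natAbs : ℝ) ^ 3 * (a ^ 3) ^ 2 := by ring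
        _ ≤ (a ^ 5) ^ 3 + 2 := h10
        _ = a ^ 15 + 2 := by ring
        _ ≤ 8 * a ^ 15 := by linarith
        _ = _ := by ring
    have h13 : (s.1.natAbs : ℝ) ^ 3 ≤ (2 * a ^ 3) ^ 3 :=
      le_of_mul_le_mul_right h12 (by positivity)
    exact le_of_pow_le_pow_left₀ (by norm_num) (by positivity) h13
  have b2 : (F2.card : ℝ) ≤ 2 * (3 * C2 * P * a ^ 3 * (1 + Real.log Z)) * (1 + Real.log M) := by
    apply sumF F2 M _ (by positivity) hx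
    intro x hx0 hxM
    have hxr : (x.natAbs : ℝ) ≤ 2 * a ^ 3 := le_trans (by exact_mod_cast hxM) hM
    have h14 := fib C2 (ε / 6) hC2 (by linarith) Z hZ2 (fun x hx F hF => hX Z x hZ2 hx F hF)
      a ha ha5 x hx0 hxr ((F2.filter (fun s => s.1 = x)).image Prod.snd) (by
        intro s hs
        rw [Finset.mem_image] at hs
        obtain ⟨t, ht, rfl⟩ := hs
        rw [Finset.mem_filter, Finset.mem_filter] at ht
        have h15 := hFm t ht.1.1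
        rw [ht.2] at h15
        exact h15)
    rw [Finset.card_image_of_injOn, hPe] at h14
    · exact h14
    · rintro s hs t ht hst
      rw [Finset.mem_coe, Finset.mem_filter] at hs ht
      exact Prod.ext (hs.2.trans ht.2.symm) hst
  have hM0 : (0 : ℝ) < M := by exact_mod_cast hM1
  have hlogM : 1 + Real.log M ≤ 2 * L := by
    have h16 : (M : ℝ) ≤ (Z : ℝ) ^ 2 := by
      have ha35 : a ^ 3 ≤ a ^ 5 := pow_le_pow_right₀ ha (by norm_num)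
      rw [ha5] at ha35
      nlinarith
    have h17 := Real.log_le_log hM0 h16
    rw [Real.log_pow] at h17
    push_cast at h17
    linarith
  have hlM0 : 0 ≤ Real.log M := Real.log_nonneg (by exact_mod_cast hM1)
  rw [← hL] at b1 b2
  have hA : 0 < a ^ 3 := by positivity
  have hP0 : 0 < P := by linarith
  have hPP : P ≤ P ^ 3 := le_self_pow₀ hP1 (by norm_num)
  have c1 : (F1.card : ℝ) ≤ 2 * C1 * K * (a ^ 3 * P ^ 3) := by
    calc (F1.card : ℝ) ≤ C1 * Y * L := b1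
      _ ≤ C1 * (2 * a ^ 3) * L := by gcongr
      _ ≤ C1 * (2 * a ^ 3) * (K * P) := by gcongr
      _ ≤ C1 * (2 * a ^ 3) * (K * P ^ 3) := by gcongr
      _ = _ := by ring
  have c2 : (F2.card : ℝ) ≤ 12 * C2 * (2 * K ^ 2) * (a ^ 3 * P ^ 3) := by
    calc (F2.card : ℝ) ≤ 2 * (3 * C2 * P * a ^ 3 * L) * (1 + Real.log M) := b2
      _ ≤ 2 * (3 * C2 * P * a ^ 3 * L) * (2 * L) := by gcongr
      _ ≤ 2 * (3 * C2 * P * a ^ 3 * (K * P)) * (2 * (K * P)) := by gcongr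
      _ = 12 * C2 * K ^ 2 * (a ^ 3 * P ^ 3) := by ring
      _ ≤ 12 * C2 * (2 * K ^ 2) * (a ^ 3 * P ^ 3) := by
        gcongr
        nlinarith [sq_nonneg K]
  rw [hP3]
  have c3 : (F.card : ℝ) = F1.card + F2.card := by exact_mod_cast hcard
  have c4 : 0 ≤ ((fin 1).toFinset.card : ℝ) * (a ^ 3 * P ^ 3) := by positivity
  have c5 : 0 ≤ a ^ 3 * P ^ 3 := by positivity
  show (F.card : ℝ) ≤ _
  rw [c3]
  have c6 : (((fin 1).toFinset.card : ℝ) + 2 * C1 * K + 12 * C2 * (2 * K ^ 2) + 1) *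
      (a ^ 3 * P ^ 3) = ((fin 1).toFinset.card : ℝ) * (a ^ 3 * P ^ 3) +
      (2 * C1 * K * (a ^ 3 * P ^ 3) + 12 * C2 * (2 * K ^ 2) * (a ^ 3 * P ^ 3)) +
      a ^ 3 * P ^ 3 := by ring
  rw [c6]
  linarith

end Pool.Mor
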