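import Pool.Agent.Work.MP_77c57a_nt.Interface

/-! # Block NR (helper45) -/

set_option autoImplicit false

namespace Pool.Mor

namespace NRx

variable {p : ℕ} [Fact p.Prime]

theorem cube_inj (h : p % 3 = 2) {a b : ZMod p} (hab : a ^ 3 = b ^ 3) : a = b := by
  obtain ⟨k, hk⟩ : ∃ k, p = 3 * k + 2 := ⟨p / 3, by omega⟩
  by_cases ha : a = 0
  · subst ha
    rw [zero_pow (by norm_num)] at hab
    exact (pow_eq_zero_iff (by norm_num)).mp hab.symm |>.symm
  · have hb : b ≠ 0 := by
      rintro rfl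
      rw [zero_pow (by norm_num)] at hab
      exact ha ((pow_eq_zero_iff (by norm_num)).mp hab)
    have key : ∀ c : ZMod p, c ≠ 0 → (c ^ 3) ^ k * c = 1 := by
      intro c hc
      have h1 : c ^ p = c := ZMod.pow_card c
      have h2 : c ^ p = ((c ^ 3) ^ k * c) * c := by
        have h4 : c ^ p = c ^ (3 * k + 2) := congrArg (fun n : ℕ => c ^ n) hk
        rw [h4, pow_add, pow_mul]
        ring
      rw [h2] at h1
      have h3 : ((c ^ 3) ^ k * c) * c = 1 * c := by rw [h1, one_mul]
      exact mul_right_cancel₀ hc h3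
    have h1 := key a ha
    have h2 := key b hb
    rw [hab] at h1
    have h3 : (b ^ 3) ^ k ≠ 0 := pow_ne_zero _ (pow_ne_zero _ hb)
    exact mul_left_cancel₀ h3 (h1.trans h2.symm)

open Classical in
theorem card_nonsq (h5 : 5 ≤ p) :
    (Finset.univ.filter (fun y : ZMod p => ¬ IsSquare y)).card = (p - 1) / 2 := by
  have hp2 : ringChar (ZMod p) ≠ 2 := by
    rw [ZMod.ringChar_zmod_n]
    omega
  have h1 := quadraticChar_sum_zero hp2
  have h2 : ∀ a : ZMod p, quadraticChar (ZMod p) a =
      1 - (if a = 0 then 1 else 0) - 2 * (if ¬ IsSquare a then 1 else 0) := by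
    intro a
    rw [quadraticChar_apply, quadraticCharFun]
    by_cases ha : a = 0
    · subst ha
      simp
    · by_cases hs : IsSquare a
      · simp [ha, hs]
      · simp [ha, hs]
  rw [Finset.sum_congr rfl (fun a _ => h2 a), Finset.sum_sub_distrib, Finset.sum_sub_distrib,
    ← Finset.mul_sum, Finset.sum_boole, Finset.sum_boole] at h1
  have h3 : (Finset.univ.filter (fun a : ZMod p => a = 0)).card = 1 := by
    rw [Finset.card_eq_one]
    exact ⟨0, by ext a; simp⟩
  rw [h3] at h1
  simp only [Finset.sum_const, Finset.card_univ, ZMod.card, nsmul_eq_mul, mul_one,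
    Nat.cast_one] at h1
  omega

/-- the map -/
def ph (x z : ℤ) (y : ZMod p) : ZMod p :=
  (x : ZMod p) * (((z : ZMod p) + ((|x| ^ 3 : ℤ) : ZMod p) * y) ^ 3 + 2)

theorem ph_inj (h : p % 3 = 2) {x : ℤ} (z : ℤ) (hx : ¬ (p : ℤ) ∣ x) :
    Function.Injective (ph (p := p) x z) := by
  intro a b hab
  have h1 : (x : ZMod p) ≠ 0 := by
    intro h0
    exact hx ((ZMod.intCast_zmod_eq_zero_iff_dvd x p).mp h0)
  have h2 : ((|x| ^ 3 : ℤ) : ZMod p) ≠ 0 := by
    intro h0
    rw [ZMod.intCast_zmod_eq_zero_iff_dvd] at h0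
    have h3 : (p : ℤ) ∣ |x| := (Nat.prime_iff_prime_int.mp (Fact.out : p.Prime)).dvd_of_dvd_pow h0
    exact hx ((dvd_abs _ _).mp h3)
  have h3 := mul_left_cancel₀ h1 hab
  have h4 := cube_inj h (add_right_cancel h3)
  exact mul_left_cancel₀ h2 (add_left_cancel h4)

end NRx

open NRx in
theorem p_NR : S_NR := by
  classical
  intro p x z hp h5 h3 hx
  haveI : Fact p.Prime := ⟨hp⟩
  rw [← card_nonsq (p := p) h5]
  have hinj := ph_inj (p := p) h3 z hx
  have hsurj : Function.Surjective (ph (p := p) x z) := Finite.injective_iff_surjective.mp hinj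
  have hcast : ∀ t : ℕ, (((x * ((z + |x| ^ 3 * t) ^ 3 + 2) : ℤ)) : ZMod p) =
      ph x z ((t : ℕ) : ZMod p) := by
    intro t
    unfold ph
    push_cast
    ring
  refine Finset.card_bij (fun t _ => ph x z ((t : ℕ) : ZMod p)) ?_ ?_ ?_
  · intro t ht
    simp only [Finset.mem_filter, Finset.mem_range, Finset.mem_univ, true_and] at ht ⊢
    rw [← hcast]
    exact ht.2
  · intro t ht t' ht' he
    simp only [Finset.mem_filter, Finset.mem_range] at ht ht'
    have h6 := hinj he
    have h7 := congrArg ZMod.val h6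
    rwa [ZMod.val_natCast_of_lt ht.1, ZMod.val_natCast_of_lt ht'.1] at h7
  · intro y hy
    simp only [Finset.mem_filter, Finset.mem_univ, true_and] at hy
    obtain ⟨a, ha⟩ := hsurj y
    refine ⟨a.val, ?_, ?_⟩
    · simp only [Finset.mem_filter, Finset.mem_range]
      refine ⟨ZMod.val_lt a, ?_⟩
      rw [hcast, ZMod.natCast_zmod_val, ha]
      exact hy
    · rw [ZMod.natCast_zmod_val, ha]

end Pool.Mor
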