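import Pool.Agent.Work.MP_77c57a_nt.Interface
set_option autoImplicit false

namespace Pool.Mor
namespace ROOT35

/-- the number of roots modulo m -/
def rho (m : ℕ) : ℕ := ((Finset.range m).filter (fun z => m ∣ z ^ 3 + 2)).card

theorem rho_mul {a b : ℕ} (ha : 0 < a) (hb : 0 < b) (hab : Nat.Coprime a b) :
    rho (a * b) ≤ rho a * rho b := by
  unfold rho
  rw [← Finset.card_product]
  refine Finset.card_le_card_of_injOn (fun z => (z % a, z % b)) ?_ ?_
  · intro z hz
    obtain ⟨-, h2⟩ := Finset.mem_filter.1 (Finset.mem_coe.1 hz)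
    rw [Finset.mem_coe, Finset.mem_product]
    refine ⟨Finset.mem_filter.2 ⟨Finset.mem_range.2 (Nat.mod_lt _ ha), ?_⟩,
      Finset.mem_filter.2 ⟨Finset.mem_range.2 (Nat.mod_lt _ hb), ?_⟩⟩
    · have h3 : a ∣ z ^ 3 + 2 := (Dvd.intro _ rfl).trans h2
      have h4 : (z % a) ^ 3 + 2 ≡ z ^ 3 + 2 [MOD a] := ((Nat.mod_modEq z a).pow 3).add_right 2
      exact (h4.dvd_iff (dvd_refl a)).2 h3
    · have h3 : b ∣ z ^ 3 + 2 := (Dvd.intro_left _ rfl).trans h2
      have h4 : (z % b) ^ 3 + 2 ≡ z ^ 3 + 2 [MOD b] := ((Nat.mod_modEq z b).pow 3).add_right 2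
      exact (h4.dvd_iff (dvd_refl b)).2 h3
  · intro z hz z' hz' h
    obtain ⟨h1, -⟩ := Finset.mem_filter.1 (Finset.mem_coe.1 hz)
    obtain ⟨h1', -⟩ := Finset.mem_filter.1 (Finset.mem_coe.1 hz')
    have e1 : z ≡ z' [MOD a] := congrArg Prod.fst h
    have e2 : z ≡ z' [MOD b] := congrArg Prod.snd h
    have e3 : z ≡ z' [MOD a * b] := (Nat.modEq_and_modEq_iff_modEq_mul hab).1 ⟨e1, e2⟩
    exact e3.eq_of_lt_of_lt (Finset.mem_range.1 h1) (Finset.mem_range.1 h1')

theorem rho_cube (h1 : S_RP) : ∀ n : ℕ, Odd n → ¬ 3 ∣ n → rho (n ^ 3) ≤ 3 ^ n.primeFactors.card := by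
  intro n
  induction n using Nat.recOnPosPrimePosCoprime with
  | prime_pow p k hp hk =>
    intro ho h3
    have hp5 : 5 ≤ p := by
      have h2 : p ≠ 2 := by
        rintro rfl
        have : 2 ∣ 2 ^ k := dvd_pow_self 2 hk.ne'
        have h4 := (Nat.not_even_iff_odd.2 ho)
        exact h4 (even_iff_two_dvd.2 this)
      have h3' : p ≠ 3 := by
        rintro rfl
        exact h3 (dvd_pow_self 3 hk.ne')
      have h4 : p ≠ 4 := by
        rintro rfl
        exact absurd hp (by norm_num)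
      have := hp.two_le
      omega
    have e : (p ^ k) ^ 3 = p ^ (k * 3) := by rw [← pow_mul]
    rw [e, Nat.primeFactors_prime_pow hk.ne' hp, Finset.card_singleton, pow_one]
    exact h1 p (k * 3) hp hp5
  | zero =>
    intro ho
    exact absurd ho (by decide)
  | one =>
    intro _ _
    show ((Finset.range (1 ^ 3)).filter (fun z => 1 ^ 3 ∣ z ^ 3 + 2)).card ≤ _
    refine (Finset.card_filter_le _ _).trans ?_
    simp
  | coprime a b ha hb hab iha ihb =>
    intro ho h3
    have hoa : Odd a := (Nat.odd_mul.1 ho).1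
    have hob : Odd b := (Nat.odd_mul.1 ho).2
    have h3a : ¬ 3 ∣ a := fun h => h3 (h.mul_right b)
    have h3b : ¬ 3 ∣ b := fun h => h3 (h.mul_left a)
    have e : (a * b) ^ 3 = a ^ 3 * b ^ 3 := mul_pow a b 3
    rw [e, hab.primeFactors_mul, Finset.card_union_of_disjoint hab.disjoint_primeFactors, pow_add]
    exact (rho_mul (by positivity) (by positivity) (hab.pow 3 3)).trans
      (Nat.mul_le_mul (iha hoa h3a) (ihb hob h3b))

theorem three_pow (ε : ℝ) (hε : 0 < ε) : ∃ C : ℝ, 0 < C ∧ ∀ n : ℕ, n ≠ 0 →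
    (3 : ℝ) ^ n.primeFactors.card ≤ C * (n : ℝ) ^ ε := by
  obtain ⟨B, hB⟩ := exists_nat_ge ((3 : ℝ) ^ (1 / ε))
  refine ⟨3 ^ (B + 1), by positivity, ?_⟩
  intro n hn
  have h1 : ∀ p ∈ n.primeFactors, (3 : ℝ) ≤ (if p ≤ B then 3 else 1) * (p : ℝ) ^ ε := by
    intro p hp
    have hp1 : (1 : ℝ) ≤ p := by exact_mod_cast (Nat.prime_of_mem_primeFactors hp).one_lt.le
    have hpe : (1 : ℝ) ≤ (p : ℝ) ^ ε := Real.one_le_rpow hp1 hε.le
    split_ifs with h
    · linarith
    · push Not at h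
      have h2 : (3 : ℝ) ^ (1 / ε) ≤ p := hB.trans (by exact_mod_cast h.le)
      have h3 := Real.rpow_le_rpow (by positivity) h2 hε.le
      rw [← Real.rpow_mul (by norm_num), one_div, inv_mul_cancel₀ hε.ne', Real.rpow_one] at h3
      linarith
  have h2 : (3 : ℝ) ^ n.primeFactors.card = ∏ p ∈ n.primeFactors, (3 : ℝ) := by
    rw [Finset.prod_const]
  rw [h2]
  calc ∏ p ∈ n.primeFactors, (3 : ℝ)
      ≤ ∏ p ∈ n.primeFactors, ((if p ≤ B then (3 : ℝ) else 1) * (p : ℝ) ^ ε) :=
        Finset.prod_le_prod (fun _ _ => by norm_num) h1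
    _ = (∏ p ∈ n.primeFactors, (if p ≤ B then (3 : ℝ) else 1)) * ∏ p ∈ n.primeFactors, (p : ℝ) ^ ε :=
        Finset.prod_mul_distrib
    _ ≤ 3 ^ (B + 1) * (n : ℝ) ^ ε := by
        apply mul_le_mul
        · rw [← Finset.prod_filter, Finset.prod_const]
          apply pow_le_pow_right₀ (by norm_num)
          have : (n.primeFactors.filter (fun p => p ≤ B)) ⊆ Finset.range (B + 1) := by
            intro p hp
            have := (Finset.mem_filter.1 hp).2
            exact Finset.mem_range.2 (by omega)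
          exact (Finset.card_le_card this).trans (by rw [Finset.card_range])
        · have h4 : ∏ p ∈ n.primeFactors, (p : ℝ) ^ ε = ((∏ p ∈ n.primeFactors, p : ℕ) : ℝ) ^ ε := by
            rw [Nat.cast_prod]
            exact Real.finsetProd_rpow _ _ (fun p _ => Nat.cast_nonneg p) ε
          rw [h4]
          apply Real.rpow_le_rpow (Nat.cast_nonneg _) _ hε.le
          exact_mod_cast Nat.le_of_dvd (Nat.pos_of_ne_zero hn) (Nat.prod_primeFactors_dvd n)
        · exact Finset.prod_nonneg (fun p _ => Real.rpow_nonneg (Nat.cast_nonneg p) ε)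
        · positivity

end ROOT35

open ROOT35 in
theorem p_ROOT35 (h1 : S_RP) : S_ROOT := by
  intro ε hε
  obtain ⟨C, hC, h2⟩ := three_pow ε hε
  refine ⟨C, hC, ?_⟩
  intro n ho h3
  have hn : n ≠ 0 := by
    rintro rfl
    exact absurd ho (by decide)
  refine le_trans ?_ (h2 n hn)
  have h4 := rho_cube h1 n ho h3
  unfold rho at h4
  exact_mod_cast h4

end Pool.Mor
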