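import Pool.Agent.Work.MP_77c57a_nt.Interface

/-! # RP: cube roots modulo a prime power -/

set_option autoImplicit false

namespace Pool.Mor

theorem p_RP : S_RP := by
  intro p k hp h5
  classical
  have hpp : 0 < p ^ k := pow_pos hp.pos k
  have : NeZero (p ^ k) := ⟨hpp.ne'⟩
  have hcyc : IsCyclic (ZMod (p ^ k))ˣ := ZMod.isCyclic_units_of_prime_pow p hp (by omega) k
  set S := (Finset.range (p ^ k)).filter (fun z => p ^ k ∣ z ^ 3 + 2) with hS
  rcases S.eq_empty_or_nonempty with h0 | ⟨z0, hz0⟩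
  · rw [h0]
    simp
  have hcube : ∀ z ∈ S, ((z : ℕ) : ZMod (p ^ k)) ^ 3 = -2 := by
    intro z hz
    rw [hS, Finset.mem_filter] at hz
    have h1 := (ZMod.natCast_eq_zero_iff (z ^ 3 + 2) (p ^ k)).2 hz.2
    push_cast at h1
    linear_combination h1
  have h2u : IsUnit (-2 : ZMod (p ^ k)) := by
    have h1 : IsUnit ((2 : ℕ) : ZMod (p ^ k)) := by
      rw [ZMod.isUnit_iff_coprime]
      apply Nat.Coprime.pow_right
      rw [Nat.coprime_primes Nat.prime_two hp]
      omega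
    have h2 := h1.neg
    push_cast at h2
    exact h2
  have hun : ∀ z ∈ S, IsUnit ((z : ℕ) : ZMod (p ^ k)) := by
    intro z hz
    rw [← isUnit_pow_iff (n := 3) (by norm_num), hcube z hz]
    exact h2u
  obtain ⟨u0, hu0⟩ := hun z0 hz0
  let φ : ℕ → (ZMod (p ^ k))ˣ := fun z =>
    if h : IsUnit ((z : ℕ) : ZMod (p ^ k)) then h.unit * u0⁻¹ else 1
  have hφ : ∀ z ∈ S, (φ z : ZMod (p ^ k)) * u0 = ((z : ℕ) : ZMod (p ^ k)) := by
    intro z hz
    have h1 : φ z = (hun z hz).unit * u0⁻¹ := dif_pos (hun z hz)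
    rw [h1, Units.val_mul, mul_assoc, ← Units.val_mul, inv_mul_cancel, Units.val_one, mul_one]
    exact IsUnit.unit_spec _
  refine le_trans ?_ (IsCyclic.card_pow_eq_one_le (α := (ZMod (p ^ k))ˣ) (n := 3) (by norm_num))
  refine Finset.card_le_card_of_injOn φ ?_ ?_
  · intro z hz
    have hz : z ∈ S := hz
    rw [Finset.mem_coe, Finset.mem_filter]
    refine ⟨Finset.mem_univ _, ?_⟩
    apply Units.ext
    rw [Units.val_pow_eq_pow_val, Units.val_one]
    have h1 : ((u0 : ZMod (p ^ k))) ^ 3 = -2 := by rw [hu0]; exact hcube z0 hz0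
    have h2 : (φ z : ZMod (p ^ k)) ^ 3 * (u0 : ZMod (p ^ k)) ^ 3 = (u0 : ZMod (p ^ k)) ^ 3 := by
      rw [← mul_pow, hφ z hz, hcube z hz, h1]
    have h3 : IsUnit ((u0 : ZMod (p ^ k)) ^ 3) := (Units.isUnit u0).pow 3
    exact h3.mul_right_cancel (h2.trans (one_mul _).symm)
  · intro z hz z' hz' hzz
    have hz : z ∈ S := hz
    have hz' : z' ∈ S := hz'
    have h1 : ((z : ℕ) : ZMod (p ^ k)) = ((z' : ℕ) : ZMod (p ^ k)) := by
      rw [← hφ z hz, ← hφ z' hz', hzz]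
    rw [ZMod.natCast_eq_natCast_iff'] at h1
    rw [hS, Finset.mem_filter, Finset.mem_range] at hz hz'
    rwa [Nat.mod_eq_of_lt hz.1, Nat.mod_eq_of_lt hz'.1] at h1

end Pool.Mor
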