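import Pool.Agent.Work.MP_77c57a_nt.Interface
import Pool.Agent.Work.MP_0b7501_nt.LargeSieve

/-! # Block SV: the sieve bound in one residue class -/

namespace Pool.Mor

open Finset Filter

namespace Sv

theorem card_primeFactors_le (n : ℕ) (T : ℕ) (hn : n ≠ 0) (hnT : n ≤ T) :
    (n.primeFactors.card : ℝ) ≤ 2 * Real.log T := by
  have h1 : 2 ^ n.primeFactors.card ≤ ∏ p ∈ n.primeFactors, p := by
    rw [← Finset.prod_const]
    exact Finset.prod_le_prod' fun p hp => (Nat.prime_of_mem_primeFactors hp).two_le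
  have h2 : ∏ p ∈ n.primeFactors, p ≤ n := Nat.le_of_dvd (Nat.pos_of_ne_zero hn)
    (Nat.prod_primeFactors_dvd n)
  have h3 : ((2 : ℝ)) ^ n.primeFactors.card ≤ (T : ℝ) := by
    exact_mod_cast (h1.trans h2).trans hnT
  have h4 : Real.log ((2 : ℝ) ^ n.primeFactors.card) ≤ Real.log T :=
    Real.log_le_log (by positivity) h3
  rw [Real.log_pow] at h4
  have h5 : (0.5 : ℝ) < Real.log 2 := by linarith [Real.log_two_gt_d9]
  have h6 : (0 : ℝ) ≤ (n.primeFactors.card : ℝ) := by positivity
  nlinarith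

end Sv

theorem p_SV (h1 : S_PR) (h2 : S_NR) : S_SV := by
  classical
  obtain ⟨c, hc, Q0, hPR⟩ := h1
  have hlo := Real.isLittleO_pow_log_id_atTop (n := 2)
  have hev := hlo.def (show (0 : ℝ) < c / 24 by positivity)
  obtain ⟨Y0, hY0⟩ := eventually_atTop.1 hev
  obtain ⟨T0, hT0⟩ : ∃ T0 : ℕ, T0 = (⌈Y0⌉₊ + 1) ^ 2 + (Q0 + 4) ^ 2 := ⟨_, rfl⟩
  refine ⟨384 / c + 2 * ((T0 : ℝ) + 1), by positivity, ?_⟩
  intro x z T hx hT hxT
  have hTR : (2 : ℝ) ≤ (T : ℝ) := by exact_mod_cast hT
  have hT1 : (1 : ℝ) ≤ Real.sqrt T := by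
    rw [Real.one_le_sqrt]
    linarith
  have hlog2 : (1 : ℝ) / 2 ≤ Real.log T := by
    have := Real.log_le_log (by norm_num) hTR
    linarith [Real.log_two_gt_d9]
  have hprod : (1 : ℝ) / 2 ≤ Real.sqrt T * Real.log T := by nlinarith
  rcases Nat.lt_or_ge T T0 with hlt | hge
  · have e1 : (((Finset.range (T + 1)).filter (fun t : ℕ =>
        IsSquare (x * ((z + |x| ^ 3 * t) ^ 3 + 2)))).card : ℝ) ≤ (T : ℝ) + 1 := by
      have := Finset.card_filter_le (Finset.range (T + 1)) (fun t : ℕ =>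
        IsSquare (x * ((z + |x| ^ 3 * t) ^ 3 + 2)))
      rw [Finset.card_range] at this
      exact_mod_cast this
    have e2 : (T : ℝ) ≤ T0 := by exact_mod_cast hlt.le
    have e3 : 0 < 384 / c := by positivity
    calc _ ≤ (T : ℝ) + 1 := e1
      _ ≤ (T0 : ℝ) + 1 := by linarith
      _ = 2 * ((T0 : ℝ) + 1) * (1 / 2) := by ring
      _ ≤ 2 * ((T0 : ℝ) + 1) * (Real.sqrt T * Real.log T) := by
        apply mul_le_mul_of_nonneg_left hprod
        positivity
      _ ≤ (384 / c + 2 * ((T0 : ℝ) + 1)) * (Real.sqrt T * Real.log T) := by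
        apply mul_le_mul_of_nonneg_right _ (by linarith)
        linarith
  · obtain ⟨Q, hQ⟩ : ∃ Q : ℕ, Q = Nat.sqrt T := ⟨_, rfl⟩
    have hQ4 : Q0 + 4 ≤ Q := by
      rw [hQ, Nat.le_sqrt']
      omega
    have hQT : Q ^ 2 ≤ T := by
      rw [hQ]
      exact Nat.sqrt_le' T
    have hQT' : T < (Q + 1) ^ 2 := by
      rw [hQ]
      exact Nat.lt_succ_sqrt' T
    have hYT : Y0 ≤ Real.sqrt T := by
      have a1 : Y0 ≤ (⌈Y0⌉₊ : ℝ) := Nat.le_ceil Y0
      have a2 : ((⌈Y0⌉₊ : ℝ) + 1) ≤ Real.sqrt T := by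
        apply Real.le_sqrt_of_sq_le
        have : (⌈Y0⌉₊ + 1) ^ 2 ≤ T := by omega
        exact_mod_cast this
      linarith
    obtain ⟨y, hy⟩ : ∃ y : ℝ, y = Real.sqrt T := ⟨_, rfl⟩
    obtain ⟨L, hL⟩ : ∃ L : ℝ, L = Real.log T := ⟨_, rfl⟩
    have hy0 : 0 < y := by rw [hy]; linarith
    have hyy : y * y = T := by rw [hy]; exact Real.mul_self_sqrt (by positivity)
    have hlogy : Real.log y = L / 2 := by
      rw [hy, Real.log_sqrt (by positivity), hL]
    have hLo := hY0 _ hYT
    rw [← hy] at hLo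
    simp only [id, Real.norm_eq_abs] at hLo
    rw [abs_of_nonneg (by positivity), abs_of_pos hy0, hlogy] at hLo
    -- log T is at least 1
    have hT16 : (16 : ℝ) ≤ T := by
      have : 16 ≤ T := by
        have : 4 ^ 2 ≤ Q ^ 2 := Nat.pow_le_pow_left (by omega) 2
        omega
      exact_mod_cast this
    have hL1 : 1 ≤ L := by
      rw [hL]
      have a1 := Real.log_le_log (by norm_num) hT16
      have a2 : Real.log (16 : ℝ) = 4 * Real.log 2 := by
        rw [show (16 : ℝ) = 2 ^ 4 by norm_num, Real.log_pow]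
        norm_num
      linarith [Real.log_two_gt_d9]
    -- the size of Q
    have hQy : y / 2 ≤ (Q : ℝ) := by
      have a1 : y < (Q : ℝ) + 1 := by
        rw [hy]
        have : (T : ℝ) < ((Q : ℝ) + 1) ^ 2 := by exact_mod_cast hQT'
        exact (Real.sqrt_lt' (by positivity)).2 this
      have a2 : (4 : ℝ) ≤ (Q : ℝ) := by exact_mod_cast (by omega : 4 ≤ Q)
      linarith
    have hQle : (Q : ℝ) ≤ y := by
      rw [hy]
      apply Real.le_sqrt_of_sq_le
      exact_mod_cast hQT
    have hQ4R : (4 : ℝ) ≤ (Q : ℝ) := by exact_mod_cast (by omega : 4 ≤ Q)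
    have hlogQ : Real.log Q ≤ L / 2 := by
      rw [← hlogy]
      exact Real.log_le_log (by linarith) hQle
    have hlogQ0 : 0 < Real.log Q := Real.log_pos (by linarith)
    -- the primes
    obtain ⟨P, hP⟩ : ∃ P : Finset ℕ, P =
      (Finset.range (Q + 1)).filter (fun p => p.Prime ∧ p % 3 = 2) := ⟨_, rfl⟩
    obtain ⟨S, hS⟩ : ∃ S : Finset ℕ, S = P.filter (fun p => 5 ≤ p ∧ ¬ p ∣ x.natAbs) := ⟨_, rfl⟩
    have hPc : c * y / L ≤ (P.card : ℝ) := by
      have a1 := hPR Q (by omega)
      rw [← hP] at a1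
      refine le_trans ?_ a1
      have hLpos : 0 < L := by linarith
      rw [div_le_div_iff₀ hLpos hlogQ0]
      have b1 : c * y * Real.log Q ≤ c * y * (L / 2) :=
        mul_le_mul_of_nonneg_left hlogQ (by positivity)
      have b2 : c * (y / 2) * L ≤ c * Q * L := by
        apply mul_le_mul_of_nonneg_right _ hLpos.le
        exact mul_le_mul_of_nonneg_left hQy hc.le
      linarith
    have hPS : P ⊆ S ∪ ({2} ∪ x.natAbs.primeFactors) := by
      intro p hp
      have hp' := hp
      rw [hP, Finset.mem_filter] at hp'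
      obtain ⟨_, hpp, hp3⟩ := hp'
      by_cases hd : p ∣ x.natAbs
      · apply Finset.mem_union_right
        apply Finset.mem_union_right
        exact Nat.mem_primeFactors.2 ⟨hpp, hd, Int.natAbs_ne_zero.2 hx⟩
      · by_cases h5 : 5 ≤ p
        · apply Finset.mem_union_left
          rw [hS]
          exact Finset.mem_filter.2 ⟨hp, h5, hd⟩
        · apply Finset.mem_union_right
          apply Finset.mem_union_left
          rw [Finset.mem_singleton]
          have := hpp.two_le
          omega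
    have hcard : (P.card : ℝ) ≤ S.card + (1 + 2 * L) := by
      have a1 := Finset.card_le_card hPS
      have a2 := Finset.card_union_le S ({2} ∪ x.natAbs.primeFactors)
      have a3 := Finset.card_union_le ({2} : Finset ℕ) x.natAbs.primeFactors
      rw [Finset.card_singleton] at a3
      have a4 : P.card ≤ S.card + (1 + x.natAbs.primeFactors.card) := by omega
      have a5 : (P.card : ℝ) ≤ S.card + (1 + (x.natAbs.primeFactors.card : ℝ)) := by
        exact_mod_cast a4
      have a6 := Sv.card_primeFactors_le x.natAbs T (Int.natAbs_ne_zero.2 hx) hxT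
      rw [← hL] at a6
      linarith
    have hScard : c / 2 * y / L ≤ (S.card : ℝ) := by
      have hLpos : 0 < L := by linarith
      have a1 : 1 + 2 * L ≤ c / 2 * y / L := by
        rw [le_div_iff₀ hLpos]
        nlinarith
      have a2 : c * y / L = c / 2 * y / L + c / 2 * y / L := by ring
      linarith
    have hSpos : 0 < (S.card : ℝ) := by
      have hLpos : 0 < L := by linarith
      refine lt_of_lt_of_le ?_ hScard
      positivity
    -- the sieve
    let Ω : ℕ → Finset ℕ := fun p => (Finset.range p).filter (fun t : ℕ =>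
      ¬ IsSquare (((x * ((z + |x| ^ 3 * t) ^ 3 + 2) : ℤ)) : ZMod p))
    have hSp : ∀ q ∈ S, q.Prime ∧ q ≤ Q ∧ q % 3 = 2 ∧ 5 ≤ q ∧ ¬ (q : ℤ) ∣ x := by
      intro q hq
      rw [hS, Finset.mem_filter, hP, Finset.mem_filter, Finset.mem_range] at hq
      exact ⟨hq.1.2.1, by omega, hq.1.2.2, hq.2.1, fun h => hq.2.2 (Int.natCast_dvd.1 h)⟩
    have hΩc : ∀ q ∈ S, ((1 : ℝ) / 3) ≤ ((Ω q).card : ℝ) / q := by
      intro q hq
      obtain ⟨b1, b2, b3, b4, b5⟩ := hSp q hq
      have b6 : (Ω q).card = (q - 1) / 2 := by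
        have := h2 q x z b1 b4 b3 b5
        convert this
      rw [b6]
      obtain ⟨k, hk⟩ : ∃ k, q = 2 * k + 1 := by
        rcases b1.eq_two_or_odd' with h | h
        · omega
        · obtain ⟨k, hk⟩ := h
          exact ⟨k, hk⟩
      have b7 : (q - 1) / 2 = k := by omega
      rw [b7, hk]
      have b8 : (1 : ℝ) ≤ (k : ℝ) := by exact_mod_cast (by omega : 1 ≤ k)
      push_cast
      rw [div_le_div_iff₀ (by norm_num) (by positivity)]
      linarith
    obtain ⟨μ, hμ⟩ : ∃ μ : ℝ, μ = ∑ q ∈ S, ((Ω q).card : ℝ) / q := ⟨_, rfl⟩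
    have hμ3 : (S.card : ℝ) / 3 ≤ μ := by
      rw [hμ]
      have := Finset.card_nsmul_le_sum S (fun q => ((Ω q).card : ℝ) / q) (1 / 3) hΩc
      rw [nsmul_eq_mul] at this
      linarith
    have hμ0 : 0 < μ := by linarith
    have hmain := Pool.Agent.Work.MP_0b7501_nt.large_sieve_variance T Q (by omega) S
      (fun q hq => ⟨(hSp q hq).1, (hSp q hq).2.1⟩) Ω
      (fun q _ c hc => Finset.mem_range.1 (Finset.mem_filter.1 hc).1) μ hμ hμ0
    have hsub : ((Finset.range (T + 1)).filter (fun t : ℕ =>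
        IsSquare (x * ((z + |x| ^ 3 * t) ^ 3 + 2)))) ⊆
        ((Finset.range (T + 1)).filter
          (fun m => ((S.filter (fun q => m % q ∈ Ω q)).card : ℝ) ≤ μ / 2)) := by
      intro t ht
      rw [Finset.mem_filter] at ht ⊢
      refine ⟨ht.1, ?_⟩
      have : S.filter (fun q => t % q ∈ Ω q) = ∅ := by
        rw [Finset.filter_eq_empty_iff]
        intro q _ hmem
        have hns := (Finset.mem_filter.1 hmem).2
        apply hns
        have e : (((x * ((z + |x| ^ 3 * ((t % q : ℕ) : ℤ)) ^ 3 + 2) : ℤ)) : ZMod q) =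
            (((x * ((z + |x| ^ 3 * (t : ℤ)) ^ 3 + 2) : ℤ)) : ZMod q) := by
          push_cast
          rfl
        rw [e]
        exact ht.2.map (Int.castRingHom (ZMod q))
      rw [this, Finset.card_empty]
      push_cast
      linarith
    have hle : (((Finset.range (T + 1)).filter (fun t : ℕ =>
        IsSquare (x * ((z + |x| ^ 3 * t) ^ 3 + 2)))).card : ℝ) ≤ 64 * (T : ℝ) / μ := by
      have a1 : max T (Q ^ 2) = T := max_eq_left hQT
      rw [a1] at hmain
      refine le_trans ?_ hmain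
      exact_mod_cast Finset.card_le_card hsub
    have hfin : 64 * (T : ℝ) / μ ≤ 384 / c * (y * L) := by
      have hLpos : 0 < L := by linarith
      have a1 : c / 6 * y / L ≤ μ := by
        have : c / 2 * y / L / 3 = c / 6 * y / L := by ring
        linarith
      have a2 : 0 < c / 6 * y / L := by positivity
      calc 64 * (T : ℝ) / μ ≤ 64 * (T : ℝ) / (c / 6 * y / L) :=
            div_le_div_of_nonneg_left (by positivity) a2 a1
        _ = 384 / c * (y * L) := by
            rw [← hyy]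
            field_simp
            ring
    rw [← hy, ← hL]
    have hyL : 0 ≤ y * L := by
      have : 0 ≤ L := by linarith
      positivity
    calc _ ≤ 64 * (T : ℝ) / μ := hle
      _ ≤ 384 / c * (y * L) := hfin
      _ ≤ (384 / c + 2 * ((T0 : ℝ) + 1)) * (y * L) := by
        apply mul_le_mul_of_nonneg_right _ hyL
        have : (0 : ℝ) ≤ T0 := by positivity
        linarith

end Pool.Mor
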