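import Pool.Agent.Work.MP_77c57a_nt.Interface
import Pool.Agent.Work.PNT70.PNT

/-! # Many primes which are 2 modulo 3 (block PR) -/

set_option autoImplicit false

namespace Pool.Mor

open Filter Topology Chebyshev ArithmeticFunction

namespace PR

theorem cast_iff (k : ℕ) : ((k : ZMod 3) = 2) ↔ k % 3 = 2 := by
  have h : (2 : ZMod 3) = ((2 : ℕ) : ZMod 3) := rfl
  rw [h, ZMod.natCast_eq_natCast_iff']

theorem key (Q : ℕ) (hQ : 1 ≤ Q) :
    ∑ k ∈ Finset.Icc 1 Q, vonMangoldt.residueClass (2 : ZMod 3) k ≤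
      (((Finset.range (Q + 1)).filter (fun p => p.Prime ∧ p % 3 = 2)).card : ℝ) * Real.log Q
        + (psi (Q : ℝ) - theta (Q : ℝ)) := by
  have hI : Finset.Icc 1 Q = Finset.Ioc 0 Q := by
    ext k
    simp only [Finset.mem_Icc, Finset.mem_Ioc]
    omega
  have hlog : 0 ≤ Real.log Q := Real.log_natCast_nonneg Q
  rw [hI, psi_sub_theta_eq_sum_not_prime, Nat.floor_natCast,
    ← Finset.sum_filter_add_sum_filter_not (Finset.Ioc 0 Q) (fun k => k.Prime)]
  refine add_le_add ?_ (Finset.sum_le_sum fun k _ => vonMangoldt.residueClass_le _ k)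
  have h1 : ∑ k ∈ (Finset.Ioc 0 Q).filter (fun k => k.Prime),
      vonMangoldt.residueClass (2 : ZMod 3) k ≤
      ∑ k ∈ (Finset.Ioc 0 Q).filter (fun k => k.Prime), (if k % 3 = 2 then Real.log Q else 0) := by
    refine Finset.sum_le_sum fun k hk => ?_
    rw [Finset.mem_filter, Finset.mem_Ioc] at hk
    by_cases h : k % 3 = 2
    · rw [if_pos h]
      refine (vonMangoldt.residueClass_le _ k).trans (vonMangoldt_le_log.trans ?_)
      apply Real.log_le_log
      · exact_mod_cast hk.1.1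
      · exact_mod_cast hk.1.2
    · rw [if_neg h]
      have h2 : k ∉ {n : ℕ | (n : ZMod 3) = 2} := fun h3 => h ((cast_iff k).1 h3)
      rw [vonMangoldt.residueClass, Set.indicator_of_notMem h2]
  refine h1.trans ?_
  rw [← Finset.sum_filter, Finset.sum_const, nsmul_eq_mul]
  refine mul_le_mul_of_nonneg_right ?_ hlog
  have h3 : ((Finset.Ioc 0 Q).filter (fun k => k.Prime)).filter (fun k => k % 3 = 2) ⊆
      (Finset.range (Q + 1)).filter (fun p => p.Prime ∧ p % 3 = 2) := by
    intro k hk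
    rw [Finset.mem_filter, Finset.mem_filter, Finset.mem_Ioc] at hk
    rw [Finset.mem_filter, Finset.mem_range]
    exact ⟨by omega, hk.1.2, hk.2⟩
  exact_mod_cast Finset.card_le_card h3

end PR

theorem p_PR : S_PR := by
  have ha : IsUnit (2 : ZMod 3) := by
    rw [isUnit_iff_exists_inv]
    exact ⟨2, by decide⟩
  have h1 := Pool.Agent.Work.PNT70.pnt_ap (q := 3) (a := 2) ha
  have htot : ((Nat.totient 3 : ℕ) : ℝ)⁻¹ = 1 / 2 := by
    have : Nat.totient 3 = 2 := by decide
    rw [this]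
    norm_num
  rw [htot] at h1
  have h2 := h1.eventually (eventually_gt_nhds (show (1 / 3 : ℝ) < 1 / 2 by norm_num))
  have h3 := (isLittleO_log_rpow_atTop (r := 1 / 2) (by norm_num)).bound
    (show (0 : ℝ) < 1 / 24 by norm_num)
  obtain ⟨x₀, hx₀⟩ := Filter.eventually_atTop.1 (h2.and h3)
  refine ⟨1 / 4, by norm_num, max ⌈x₀⌉₊ 3, fun Q hQ => ?_⟩
  have hQ3 : 3 ≤ Q := (le_max_right _ _).trans hQ
  have hQx : x₀ ≤ (Q : ℝ) := (Nat.le_ceil x₀).trans (by exact_mod_cast (le_max_left _ _).trans hQ)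
  obtain ⟨h4, h5⟩ := hx₀ Q hQx
  have hQpos : (0 : ℝ) < Q := by
    have : 0 < Q := by omega
    exact_mod_cast this
  have hQ1 : (1 : ℝ) < Q := by
    have : 1 < Q := by omega
    exact_mod_cast this
  have hlog : 0 < Real.log Q := Real.log_pos hQ1
  rw [lt_div_iff₀ hQpos, Nat.floor_natCast] at h4
  have h6 := PR.key Q (by omega)
  have h7 := psi_sub_theta_le hQ1.le
  have h8 : 2 * Real.sqrt Q * Real.log Q ≤ Q / 12 := by
    rw [Real.norm_of_nonneg hlog.le, Real.norm_of_nonneg (Real.rpow_nonneg hQpos.le _),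
      ← Real.sqrt_eq_rpow] at h5
    have h9 : Real.sqrt Q * Real.sqrt Q = Q := Real.mul_self_sqrt hQpos.le
    have h10 := mul_le_mul_of_nonneg_left h5 (Real.sqrt_nonneg (Q : ℝ))
    nlinarith [h10, h9]
  rw [div_le_iff₀ hlog]
  linarith

end Pool.Mor
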