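import Pool.Agent.Work.MP_77c57a_nt.Interface

/-! # Block GAP -/

namespace Pool.Mor

namespace Gap

theorem cube_ne (z : ℤ) : z ^ 3 + 2 ≠ 0 := by
  intro h
  have h1 : ((z : ZMod 7)) ^ 3 + 2 = 0 := by
    have := congrArg (Int.cast : ℤ → ZMod 7) h
    push_cast at this
    exact this
  have h2 : ∀ a : ZMod 7, a ^ 3 + 2 ≠ 0 := by decide
  exact h2 _ h1

theorem cube_inj {a b : ℤ} (h : a ^ 3 = b ^ 3) : a = b :=
  (Odd.strictMono_pow (by decide : Odd 3)).injective h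

theorem x_ne {x y z : ℤ} (h : Sol x y z) : x ≠ 0 := by
  rintro rfl
  apply cube_ne z
  rw [Sol] at h
  linarith

theorem y_ne {x y z : ℤ} (h : Sol x y z) : y ≠ 0 := by
  rintro rfl
  apply cube_ne z
  rw [Sol] at h
  linarith

theorem y_sq {y : ℤ} (h : y ≠ 0) : 1 ≤ y ^ 2 := by
  have : 0 < y ^ 2 := by positivity
  linarith

/-- lower bound for `z` -/
theorem z_ge {x y z : ℤ} (h : Sol x y z) : |x| ^ 3 ≤ |z| ^ 3 + 2 := by
  have h1 := y_sq (y_ne h)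
  have h2 : |x| ^ 3 * y ^ 2 = |z ^ 3 + 2| := by
    rw [← abs_pow, ← abs_of_nonneg (sq_nonneg y), ← abs_mul]
    rw [Sol] at h
    rw [h]
  have h3 : |z ^ 3 + 2| ≤ |z| ^ 3 + 2 := by
    refine (abs_add_le _ _).trans ?_
    rw [abs_pow]
    norm_num
  have h4 : |x| ^ 3 ≤ |x| ^ 3 * y ^ 2 := le_mul_of_one_le_right (by positivity) h1
  linarith

theorem x_le {x y z : ℤ} (h : Sol x y z) : |x| ≤ |z| + 2 := by
  have h1 := z_ge h
  by_contra hc
  push Not at hc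
  have hz := abs_nonneg z
  have h2 : (|z| + 2) ^ 3 < |x| ^ 3 := pow_lt_pow_left₀ hc (by linarith) (by norm_num)
  nlinarith [mul_nonneg hz hz]

/-- the gap principle -/
theorem gap {x1 x2 y z1 z2 X : ℤ} (h1 : Sol x1 y z1) (h2 : Sol x2 y z2) (hX : 64 ≤ X)
    (a1 : X ≤ |x1|) (a2 : |x1| < 2 * X) (b1 : X ≤ |x2|) (b2 : |x2| < 2 * X) : x1 = x2 := by
  by_contra hne
  -- the two products
  have hAB : (x2 * z1) ^ 3 - (x1 * z2) ^ 3 = 2 * (x1 ^ 3 - x2 ^ 3) := by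
    rw [Sol] at h1 h2
    have e1 : z1 ^ 3 = x1 ^ 3 * y ^ 2 - 2 := by linarith
    have e2 : z2 ^ 3 = x2 ^ 3 * y ^ 2 - 2 := by linarith
    rw [mul_pow, mul_pow, e1, e2]
    ring
  set A := x2 * z1 with hA
  set B := x1 * z2 with hB
  have hne3 : x1 ^ 3 - x2 ^ 3 ≠ 0 := fun h => hne (cube_inj (sub_eq_zero.1 h))
  have hAne : A - B ≠ 0 := by
    intro h
    have h3 : A = B := sub_eq_zero.1 h
    rw [h3, sub_self] at hAB
    apply hne3
    linarith
  have hfac : |A - B| * (A ^ 2 + A * B + B ^ 2) = |A ^ 3 - B ^ 3| := by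
    have h3 : A ^ 3 - B ^ 3 = (A - B) * (A ^ 2 + A * B + B ^ 2) := by ring
    have h4 : 0 ≤ A ^ 2 + A * B + B ^ 2 := by nlinarith [sq_nonneg (A + B), sq_nonneg A, sq_nonneg B]
    rw [h3, abs_mul, abs_of_nonneg h4]
  have h4 : 0 ≤ A ^ 2 + A * B + B ^ 2 := by nlinarith [sq_nonneg (A + B), sq_nonneg A, sq_nonneg B]
  have h5 : 1 ≤ |A - B| := Int.one_le_abs hAne
  have h6 : A ^ 2 + A * B + B ^ 2 ≤ |A ^ 3 - B ^ 3| := by
    rw [← hfac]
    exact le_mul_of_one_le_left h4 h5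
  have h7 : 3 * A ^ 2 ≤ 4 * (A ^ 2 + A * B + B ^ 2) := by nlinarith [sq_nonneg (A + 2 * B)]
  have h8 : |A ^ 3 - B ^ 3| ≤ 2 * (|x1| ^ 3 + |x2| ^ 3) := by
    rw [hAB, abs_mul]
    have : |x1 ^ 3 - x2 ^ 3| ≤ |x1| ^ 3 + |x2| ^ 3 := by
      rw [← abs_pow, ← abs_pow]
      exact abs_sub _ _
    norm_num
    linarith
  have h9 : |x1| ^ 3 ≤ (2 * X) ^ 3 := pow_le_pow_left₀ (abs_nonneg _) a2.le 3
  have h10 : |x2| ^ 3 ≤ (2 * X) ^ 3 := pow_le_pow_left₀ (abs_nonneg _) b2.le 3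
  have h11 : X ^ 2 * |z1| ^ 2 ≤ A ^ 2 := by
    have : A ^ 2 = |x2| ^ 2 * |z1| ^ 2 := by
      rw [hA, mul_pow, sq_abs, sq_abs]
    rw [this]
    exact mul_le_mul_of_nonneg_right (pow_le_pow_left₀ (by linarith) b1 2) (by positivity)
  have h12 : 3 * (X ^ 2 * |z1| ^ 2) ≤ 128 * X ^ 3 := by nlinarith
  -- `|z1| ≥ X`
  have h13 : X ≤ |z1| := by
    by_contra hc
    push Not at hc
    have h14 : |z1| ≤ X - 1 := by linarith
    have h15 : |z1| ^ 3 ≤ (X - 1) ^ 3 := pow_le_pow_left₀ (abs_nonneg _) h14 3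
    have h16 := z_ge h1
    have h17 : X ^ 3 ≤ |x1| ^ 3 := pow_le_pow_left₀ (by linarith) a1 3
    nlinarith
  have h18 : X ^ 2 ≤ |z1| ^ 2 := pow_le_pow_left₀ (by linarith) h13 2
  have h19 : 3 * (X ^ 2 * X ^ 2) ≤ 128 * X ^ 3 := by
    have : X ^ 2 * X ^ 2 ≤ X ^ 2 * |z1| ^ 2 := mul_le_mul_of_nonneg_left h18 (by positivity)
    linarith
  have h20 : 0 < X ^ 3 := by positivity
  nlinarith

/-- the code of `x` -/
def code (x : ℤ) : ℤ := if |x| < 64 then x else 64 + (Nat.log 2 x.natAbs : ℕ)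

theorem log_ge {x : ℤ} (h : ¬ |x| < 64) : 6 ≤ Nat.log 2 x.natAbs := by
  refine Nat.le_log_of_pow_le (by norm_num) ?_
  rw [Int.abs_eq_natAbs] at h
  norm_num
  omega

theorem code_inj {x1 x2 y z1 z2 : ℤ} (h1 : Sol x1 y z1) (h2 : Sol x2 y z2)
    (h : code x1 = code x2) : x1 = x2 := by
  unfold code at h
  split_ifs at h with a b b
  · exact h
  · exfalso
    have := log_ge b
    have h3 := (abs_lt.1 a).2
    omega
  · exfalso
    have := log_ge a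
    have h3 := (abs_lt.1 b).2
    omega
  · have hl : Nat.log 2 x1.natAbs = Nat.log 2 x2.natAbs := by omega
    have hx1 : x1.natAbs ≠ 0 := Int.natAbs_ne_zero.2 (x_ne h1)
    have hx2 : x2.natAbs ≠ 0 := Int.natAbs_ne_zero.2 (x_ne h2)
    have p1 := Nat.pow_log_le_self 2 hx1
    have p2 := Nat.lt_pow_succ_log_self (b := 2) (by norm_num) x1.natAbs
    have p3 := Nat.pow_log_le_self 2 hx2
    have p4 := Nat.lt_pow_succ_log_self (b := 2) (by norm_num) x2.natAbs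
    rw [← hl] at p3 p4
    have p5 : 2 ^ 6 ≤ 2 ^ Nat.log 2 x1.natAbs := Nat.pow_le_pow_right (by norm_num) (log_ge a)
    rw [pow_succ] at p2 p4
    generalize 2 ^ Nat.log 2 x1.natAbs = X at *
    refine gap (X := (X : ℤ)) h1 h2 ?_ ?_ ?_ ?_ ?_
    · norm_num at p5
      exact_mod_cast p5
    · rw [Int.abs_eq_natAbs]; exact_mod_cast p1
    · rw [Int.abs_eq_natAbs]
      have : x1.natAbs < 2 * X := by linarith
      exact_mod_cast this
    · rw [Int.abs_eq_natAbs]; exact_mod_cast p3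
    · rw [Int.abs_eq_natAbs]
      have : x2.natAbs < 2 * X := by linarith
      exact_mod_cast this

end Gap

theorem p_GAP : S_GAP := by
  refine ⟨390, by norm_num, fun Z Y hZ hY F hF => ?_⟩
  have hinj : Set.InjOn (fun s : ℤ × ℤ × ℤ => (s.2.1, Gap.code s.1)) (F : Set (ℤ × ℤ × ℤ)) := by
    rintro ⟨x1, y1, z1⟩ hs ⟨x2, y2, z2⟩ ht h
    simp only [Prod.mk.injEq] at h
    obtain ⟨rfl, hc⟩ := h
    have e1 := (hF _ hs).1
    have e2 := (hF _ ht).1
    simp only at e1 e2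
    obtain rfl := Gap.code_inj e1 e2 hc
    have hz : z1 = z2 := by
      apply Gap.cube_inj
      rw [Sol] at e1 e2
      linarith
    rw [hz]
  have hmaps : ∀ s ∈ F, (s.2.1, Gap.code s.1) ∈
      (Finset.Icc (-(Y : ℤ)) Y) ×ˢ (Finset.Icc (-63 : ℤ) (64 + (Nat.log 2 (Z + 2) : ℕ))) := by
    rintro ⟨x, y, z⟩ hs
    obtain ⟨h1, h2, h3⟩ := hF _ hs
    simp only at h1 h2 h3 ⊢
    rw [Finset.mem_product, Finset.mem_Icc, Finset.mem_Icc]
    refine ⟨abs_le.1 h3, ?_⟩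
    unfold Gap.code
    split_ifs with h
    · have := abs_lt.1 h
      constructor
      · linarith [this.1]
      · have : (0 : ℤ) ≤ (Nat.log 2 (Z + 2) : ℕ) := by positivity
        linarith [(abs_lt.1 h).2]
    · constructor
      · have : (0 : ℤ) ≤ (Nat.log 2 x.natAbs : ℕ) := by positivity
        linarith
      · have h4 : x.natAbs ≤ Z + 2 := by
          have h5 := Gap.x_le h1
          rw [Int.abs_eq_natAbs] at h5
          omega
        have h6 : Nat.log 2 x.natAbs ≤ Nat.log 2 (Z + 2) := Nat.log_mono_right h4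
        have h7 : ((Nat.log 2 x.natAbs : ℕ) : ℤ) ≤ (Nat.log 2 (Z + 2) : ℕ) := by exact_mod_cast h6
        linarith
  have hcard := Finset.card_le_card_of_injOn _ hmaps hinj
  rw [Finset.card_product, Int.card_Icc, Int.card_Icc] at hcard
  have e1 : ((Y : ℤ) + 1 - -(Y : ℤ)).toNat = 2 * Y + 1 := by omega
  have e2 : ((64 + (Nat.log 2 (Z + 2) : ℕ) : ℤ) + 1 - -63).toNat = Nat.log 2 (Z + 2) + 128 := by
    omega
  rw [e1, e2] at hcard
  have hYr : (1 : ℝ) ≤ Y := by exact_mod_cast hY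
  have hZr : (1 : ℝ) ≤ Z := by exact_mod_cast hZ
  have hlogZ : 0 ≤ Real.log Z := Real.log_nonneg hZr
  have hL : ((Nat.log 2 (Z + 2) : ℕ) : ℝ) ≤ 2 + 2 * Real.log Z := by
    have p1 := Nat.pow_log_le_self 2 (show Z + 2 ≠ 0 by omega)
    have p2 : ((2 : ℝ)) ^ (Nat.log 2 (Z + 2)) ≤ 4 * Z := by
      have : ((2 ^ (Nat.log 2 (Z + 2)) : ℕ) : ℝ) ≤ ((Z + 2 : ℕ) : ℝ) := by exact_mod_cast p1
      push_cast at this
      linarith
    have p3 := Real.log_le_log (by positivity) p2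
    rw [Real.log_pow, Real.log_mul (by norm_num) (by positivity),
      show (4 : ℝ) = 2 ^ 2 by norm_num, Real.log_pow] at p3
    have h2 := Real.log_two_gt_d9
    push_cast at p3
    have h5 : ((Nat.log 2 (Z + 2) : ℕ) : ℝ) * Real.log 2 ≤ (2 + 2 * Real.log Z) * Real.log 2 := by
      nlinarith
    exact le_of_mul_le_mul_right h5 (by linarith)
  have hc : (F.card : ℝ) ≤ (2 * (Y : ℝ) + 1) * ((Nat.log 2 (Z + 2) : ℕ) + 128) := by
    exact_mod_cast hcard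
  have h1 : (2 * (Y : ℝ) + 1) * ((Nat.log 2 (Z + 2) : ℕ) + 128) ≤
      (3 * (Y : ℝ)) * (130 + 2 * Real.log Z) := by
    refine mul_le_mul (by linarith) (by linarith) (by positivity) (by positivity)
  nlinarith [mul_nonneg (by linarith : (0 : ℝ) ≤ Y) hlogZ]

end Pool.Mor

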