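import Mathlib

/-! # Interface for MP_77c57a_nt: x^3 y^2 = z^3 + 2 has O(Z^(3/5+eps)) solutions with |z| at most Z. -/

namespace Pool.Mor

/-- the equation -/
def Sol (x y z : ℤ) : Prop := x ^ 3 * y ^ 2 = z ^ 3 + 2

/-- GAP: few solutions with small y. -/
def S_GAP : Prop := ∃ C : ℝ, 0 < C ∧ ∀ (Z Y : ℕ), 1 ≤ Z → 1 ≤ Y →
  ∀ F : Finset (ℤ × ℤ × ℤ), (∀ s ∈ F, Sol s.1 s.2.1 s.2.2 ∧ |s.2.2| ≤ (Z : ℤ) ∧ |s.2.1| ≤ (Y : ℤ)) →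
  (F.card : ℝ) ≤ C * Y * (1 + Real.log Z)

/-- RP: cube roots modulo a prime power. -/
def S_RP : Prop := ∀ (p k : ℕ), p.Prime → 5 ≤ p →
  ((Finset.range (p ^ k)).filter (fun z => p ^ k ∣ z ^ 3 + 2)).card ≤ 3

/-- ROOT: cube roots modulo a cube. -/
def S_ROOT : Prop := ∀ ε : ℝ, 0 < ε → ∃ C : ℝ, 0 < C ∧ ∀ n : ℕ, Odd n → ¬ 3 ∣ n →
  (((Finset.range (n ^ 3)).filter (fun z => n ^ 3 ∣ z ^ 3 + 2)).card : ℝ) ≤ C * (n : ℝ) ^ ε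

/-- PR: many primes which are 2 modulo 3. -/
def S_PR : Prop := ∃ c : ℝ, 0 < c ∧ ∃ Q0 : ℕ, ∀ Q : ℕ, Q0 ≤ Q →
  c * Q / Real.log Q ≤ (((Finset.range (Q + 1)).filter (fun p => p.Prime ∧ p % 3 = 2)).card : ℝ)

open Classical in
/-- NR: half of the classes are forbidden. -/
def S_NR : Prop := ∀ (p : ℕ) (x z : ℤ), p.Prime → 5 ≤ p → p % 3 = 2 → ¬ (p : ℤ) ∣ x →
  ((Finset.range p).filter (fun t : ℕ =>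
    ¬ IsSquare (((x * ((z + |x| ^ 3 * t) ^ 3 + 2) : ℤ)) : ZMod p))).card = (p - 1) / 2

open Classical in
/-- SV: the sieve bound in one residue class. -/
def S_SV : Prop := ∃ C : ℝ, 0 < C ∧ ∀ (x z : ℤ) (T : ℕ), x ≠ 0 → 2 ≤ T → x.natAbs ≤ T →
  (((Finset.range (T + 1)).filter (fun t : ℕ =>
    IsSquare (x * ((z + |x| ^ 3 * t) ^ 3 + 2)))).card : ℝ) ≤ C * (Real.sqrt T * Real.log T)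

/-- CX: the solutions with given x. -/
def S_CX : Prop := ∀ ε : ℝ, 0 < ε → ∃ C : ℝ, 0 < C ∧ ∀ (Z : ℕ) (x : ℤ), 2 ≤ Z → x ≠ 0 →
  ∀ F : Finset (ℤ × ℤ), (∀ s ∈ F, Sol x s.1 s.2 ∧ |s.2| ≤ (Z : ℤ)) →
    (F.card : ℝ) ≤ C * (x.natAbs : ℝ) ^ ε * (Z / (x.natAbs : ℝ) ^ 3 + 1) ∧
    (x.natAbs ^ 5 ≤ Z → (F.card : ℝ) ≤
      C * (x.natAbs : ℝ) ^ ε * (Real.sqrt (Z / (x.natAbs : ℝ) ^ 3) * Real.log Z))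

/-- the theorem -/
def Target : Prop := ∀ ε : ℝ, 0 < ε → ∃ C : ℝ, 0 < C ∧ ∀ Z : ℕ, 1 ≤ Z →
  {s : ℤ × ℤ × ℤ | s.1 ^ 3 * s.2.1 ^ 2 = s.2.2 ^ 3 + 2 ∧ |s.2.2| ≤ (Z : ℤ)}.Finite ∧
  (({s : ℤ × ℤ × ℤ | s.1 ^ 3 * s.2.1 ^ 2 = s.2.2 ^ 3 + 2 ∧ |s.2.2| ≤ (Z : ℤ)}.ncard : ℕ) : ℝ) ≤
    C * (Z : ℝ) ^ ((3 : ℝ) / 5 + ε)

end Pool.Mor
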